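import Pool.Agent.Lib.MP_cd509c_nt.DN.Defs4
import Pool.Agent.Lib.MP_cd509c_nt.JensenLog
import Pool.Agent.Lib.MP_cd509c_nt.Criterion
import Pool.Agent.Lib.MP_cd509c_nt.Extra

/-!
# Density of the non-real zeros of the Jensen polynomials of the Xi-function of Delta

Definitions and the statements of the pieces.
-/

set_option autoImplicit false

namespace Pool.Agent.Lib.MP_cd509c_nt.JD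

open Complex ComplexConjugate MeasureTheory
open Pool.Agent.Lib.MP_cd509c_nt.DN

/-! ## Definitions -/

/-- Jensen transform: `∑_{k ≤ D} (D choose k) g^{(k)}(0) (ω/D)^k`. -/
noncomputable def Hd (D : ℕ) (g : ℂ → ℂ) (ω : ℂ) : ℂ :=
  ∑ k ∈ Finset.range (D + 1), (D.choose k : ℂ) * iteratedDeriv k g 0 * (ω / D) ^ k

/-- local affine coordinate at `x²`, scale `a` -/
noncomputable def om (x a : ℝ) (w : ℂ) : ℂ := (x : ℂ) ^ 2 - 2 * I * a * x * w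

/-- the kernel on the circle -/
noncomputable def kD (D : ℕ) (φ : ℂ) : ℂ := cexp (D * (cexp (φ * I) - 1 - φ * I))

/-- its normalising constant -/
noncomputable def cD (D : ℕ) : ℝ := (D.factorial : ℝ) * Real.exp D / (2 * Real.pi * (D : ℝ) ^ D)

/-- lower half of the contour integral over the circle of radius `r` -/
noncomputable def BJ (D : ℕ) (g : ℂ → ℂ) (r : ℝ) (ω : ℂ) : ℂ :=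
  (cD D : ℂ) * ∫ ψ in (0 : ℝ)..Real.pi, cexp (D * (r * cexp (-(ψ * I)) / ω - 1)) * (ω / r) ^ D *
    cexp (D * ψ * I) * g (r * cexp (-(ψ * I)))

/-- real entire functions of order at most `3/4`, not vanishing at `0` -/
structure RE (g : ℂ → ℂ) : Prop where
  diff : Differentiable ℂ g
  real : ∀ w, g (conj w) = conj (g w)
  ne : g 0 ≠ 0
  gr : ∃ A : ℝ, ∀ w, ‖g w‖ ≤ A * Real.exp (A * ‖w‖ ^ (3 / 4 : ℝ))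

/-- Regularity near the axis, in the coordinate `w`. -/
structure NearReg (C₁ ε N b Y x a : ℝ) (g : ℂ → ℂ) : Prop where
  diff : Differentiable ℂ g
  real : ∀ w, g (conj w) = conj (g w)
  ne : ∀ w : ℂ, b / 16 ≤ w.re → w.re ≤ Y → |w.im| ≤ 24 * b → g (om x a w) ≠ 0
  lin : ∀ w v : ℂ, b / 16 ≤ w.re → w.re ≤ Y → |w.im| ≤ 24 * b → 0 ≤ v.re → v.re ≤ Y →
    |v.im| ≤ 24 * b →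
    ‖g (om x a v)‖ ≤ Real.exp (N * (v.re - w.re) + ε * N * ‖v - w‖) * ‖g (om x a w)‖
  glob : ∀ w v : ℂ, b / 16 ≤ w.re → w.re ≤ Y → |w.im| ≤ 24 * b → 0 ≤ v.re →
    x ^ 2 / 2 ≤ ‖om x a v‖ →
    ‖g (om x a v)‖ ≤ Real.exp (C₁ * N * (‖v - w‖ + Y)) * ‖g (om x a w)‖

/-- Regularity far from the axis, at the point `z²`. -/
structure FarReg (C₁ : ℝ) (g : ℂ → ℂ) (z : ℂ) : Prop where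
  diff : Differentiable ℂ g
  ne : ∀ ω : ℂ, ‖ω - z ^ 2‖ ≤ ‖z‖ * |z.im| / 4 →
    g ω ≠ 0 ∧ ‖g ω‖ ≤ Real.exp (C₁ * |z.im| * Real.log ‖z‖) * ‖g (z ^ 2)‖
  glob : ∀ ω : ℂ, ‖z‖ ^ 2 / 2 ≤ ‖ω‖ → ‖ω‖ ≤ 2 * ‖z‖ ^ 2 →
    ‖g ω‖ ≤ Real.exp (C₁ * Real.log ‖z‖ * (|z.im| + ‖ω - z ^ 2‖ / ‖z‖)) * ‖g (z ^ 2)‖

/-- zeros counted with multiplicity: `∑_{ω ∈ S} ord` -/
noncomputable def ordS (f : ℂ → ℂ) (S : Finset ℂ) : ℝ := ∑ ω ∈ S, (analyticOrderNatAt f ω : ℝ)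

/-! ## A. Abstract analysis -/

/-- Integral representation of the Jensen transform. -/
def S_rep : Prop := ∀ (D : ℕ) (g : ℂ → ℂ) (ω : ℂ), 1 ≤ D → Differentiable ℂ g →
  Hd D g ω = cD D * ∫ φ in (-Real.pi)..Real.pi, kD D φ * g (ω * cexp (φ * I))

/-- Splitting into two conjugate halves. -/
def S_repB : Prop := ∀ (D : ℕ) (g : ℂ → ℂ) (r : ℝ), 1 ≤ D → Differentiable ℂ g → 0 < r →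
  (∀ w, g (conj w) = conj (g w)) →
  (∀ ω : ℂ, ω ≠ 0 → Hd D g ω = BJ D g r ω + conj (BJ D g r (conj ω))) ∧
  Differentiable ℂ (fun w : ℂ => Hd D g w) ∧ DifferentiableOn ℂ (BJ D g r) {0}ᶜ

/-- size of the normalising constant -/
def S_cD : Prop := ∃ C : ℝ, 1 ≤ C ∧ ∀ D : ℕ, 1 ≤ D →
  Real.sqrt D / C ≤ cD D ∧ cD D ≤ C * Real.sqrt D

/-- Kernel lemma (saddle point on a line). -/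
def S_KL : Prop := ∀ B : ℝ, 1 ≤ B → ∃ ε₀ N₀ C : ℝ, 0 < ε₀ ∧ 1 ≤ N₀ ∧ 1 ≤ C ∧
  ∀ (N β ε v₁ L : ℝ) (F : ℂ → ℂ), N₀ ≤ N → 0 < β → β ≤ B → 0 < ε → ε ≤ ε₀ →
  -(8 * B) ≤ v₁ → v₁ ≤ β - 1 / 16 → β + 1 ≤ L → L ≤ 8 * B →
  (∀ v : ℂ, v₁ ≤ v.re → v.re ≤ L → |v.im| ≤ 1 / 8 → DifferentiableAt ℂ F v ∧ F v ≠ 0 ∧
    ‖deriv F v / F v - N * (1 - v / β)‖ ≤ ε * N * (1 + ‖v‖ / β)) →
  Real.sqrt (β / N) / C * Real.exp (-(C * ε * N)) * ‖F β‖ ≤ ‖∫ v in v₁..L, F v‖ ∧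
  ∫ v in v₁..L, ‖F v‖ ≤ C * Real.sqrt (β / N) * Real.exp (C * ε * N) * ‖F β‖

/-- From a crude comparison at scale `b` to a Lipschitz bound of the logarithm. -/
def S_up : Prop := ∀ (ε N b Y : ℝ) (G : ℂ → ℂ), 0 < ε → 0 < N → 1 ≤ b → b ≤ Y →
  Differentiable ℂ G →
  (∀ w v : ℂ, 3 * b / 16 ≤ w.re → w.re ≤ Y + b → |w.im| ≤ 21 * b → 0 ≤ v.re → v.re ≤ Y + b →
    |v.im| ≤ 21 * b → G w ≠ 0 ∧ ‖G v‖ ≤ Real.exp (ε * N * (‖v - w‖ + b)) * ‖G w‖) →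
  ∀ w v : ℂ, b / 4 ≤ w.re → w.re ≤ Y → |w.im| ≤ 20 * b → 0 ≤ v.re → v.re ≤ Y →
    |v.im| ≤ 20 * b → ‖G v‖ ≤ Real.exp (100 * ε * N * ‖v - w‖) * ‖G w‖

/-- Derivatives of a log-linear function. -/
def S_DB : Prop := ∃ η₀ N₀ C : ℝ, 0 < η₀ ∧ η₀ ≤ 1 / 100 ∧ 1 ≤ N₀ ∧ 1 ≤ C ∧
  ∀ (N η c : ℝ) (n : ℕ) (B : ℂ → ℂ), N₀ ≤ N → 0 ≤ η → η ≤ η₀ → (n : ℝ) ≤ η₀ * N →
  DifferentiableOn ℂ B (Metric.ball 0 1) →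
  (∀ w ∈ Metric.ball (0 : ℂ) 1, B w ≠ 0 ∧ |Real.log ‖B w‖ - c - N * w.re| ≤ η * N) →
  ∀ w ∈ Metric.ball (0 : ℂ) (1 / 2), iteratedDeriv n B w ≠ 0 ∧
    |Real.log ‖iteratedDeriv n B w‖ - (c + n * Real.log N) - N * w.re| ≤ 2 * η * N + C

/-- Jensen transform at a point of regularity. -/
def S_FJ : Prop := ∃ c₀ C D₀ : ℝ, 0 < c₀ ∧ 1 ≤ C ∧ 1 ≤ D₀ ∧
  ∀ (D : ℕ) (δ M : ℝ) (F : ℂ → ℂ) (ω₀ : ℂ), D₀ ≤ D → 0 < δ → δ ≤ 1 / 4 → 1 ≤ M →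
  M ≤ c₀ * D * δ ^ 2 → Differentiable ℂ F → ω₀ ≠ 0 →
  (∀ ω : ℂ, ‖ω - ω₀‖ ≤ 2 * δ * ‖ω₀‖ → F ω ≠ 0 ∧ ‖F ω‖ ≤ Real.exp M * ‖F ω₀‖) →
  (∀ ω : ℂ, (1 - δ) * ‖ω₀‖ ≤ ‖ω‖ → ‖ω‖ ≤ (1 + δ) * ‖ω₀‖ →
    ‖F ω‖ ≤ Real.exp (M * (1 + ‖ω / ω₀ - 1‖ / δ)) * ‖F ω₀‖) →
  Hd D F ω₀ ≠ 0 ∧ |Real.log ‖Hd D F ω₀‖ - Real.log ‖F ω₀‖| ≤ C * (M ^ 2 / (D * δ ^ 2) + 1)

/-! ## B. The Jensen transform near the axis -/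

/-- Transfer of the regularity. -/
def S_RT : Prop := ∀ C₁ B : ℝ, 1 ≤ C₁ → 1 ≤ B → ∃ C Y₀ ε₀ : ℝ, 1 ≤ C ∧ 1 ≤ Y₀ ∧ 0 < ε₀ ∧
  ∀ ε : ℝ, 0 < ε → ε ≤ ε₀ → ∃ N₀ : ℝ, 1 ≤ N₀ ∧ ∀ (D : ℕ) (N b Y x a : ℝ) (g : ℂ → ℂ),
    N₀ ≤ N → 1 ≤ b → 160 * b ≤ Y → Y₀ ≤ ε * Y → 0 < a → 0 < x → 1000 * a * Y ^ 2 ≤ ε * x →
    N * x ^ 2 ≤ 4 * B * D * a ^ 2 → NearReg C₁ ε N b Y x a g →
    Reg (C * ε) N b (Y / 4) (fun w => Hd D g (om x a w) * cexp (-(N * w)))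

/-- The half `BJ` is log-linear near the axis. -/
def S_BJ : Prop := ∀ C₁ : ℝ, 1 ≤ C₁ → ∃ C Y₀ ε₀ : ℝ, 1 ≤ C ∧ 1 ≤ Y₀ ∧ 0 < ε₀ ∧
  ∀ ε : ℝ, 0 < ε → ε ≤ ε₀ → ∃ N₀ : ℝ, 1 ≤ N₀ ∧ ∀ (D : ℕ) (N Y x a : ℝ) (g : ℂ → ℂ),
    N₀ ≤ N → 160 ≤ Y → Y₀ ≤ ε * Y → 0 < a → 0 < x → 1000 * a * Y ^ 2 ≤ ε * x →
    4 * D * a ^ 2 ≤ N * x ^ 2 → N * x ^ 2 ≤ 16 * D * a ^ 2 → NearReg C₁ ε N 1 Y x a g →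
    ∃ c : ℝ, ∀ w ∈ Metric.ball (0 : ℂ) (5 / 8), BJ D g (x ^ 2) (om x a w) ≠ 0 ∧
      |Real.log ‖BJ D g (x ^ 2) (om x a w)‖ - c - N * w.re| ≤ C * ε * N

/-- the conclusions near the axis, for the function `H`, scale `b`, size `N` -/
def NearC (C N b Y x a : ℝ) (H : ℂ → ℂ) : Prop :=
  (b = 1 → ∀ y : ℝ, 0 < y → y ≤ Y / 10 → H (om x a y) ≠ 0) ∧
  (b = 1 → H ((x : ℂ) ^ 2) = 0 → deriv H ((x : ℂ) ^ 2) ≠ 0) ∧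
  (2 ≤ b → ∀ y : ℝ, b ≤ y → y ≤ Y / 10 → H (om x a y) ≠ 0) ∧
  H (om x a ((2 * b : ℝ) : ℂ)) ≠ 0 ∧
  ∀ w : ℂ, ‖w - ((2 * b : ℝ) : ℂ)‖ ≤ 16 * b →
    ‖H (om x a w)‖ ≤ Real.exp (C * N * b) * ‖H (om x a ((2 * b : ℝ) : ℂ))‖

/-- Near the axis, region I: `N = n`. -/
def S_NI : Prop := ∀ C₁ B : ℝ, 1 ≤ C₁ → 1 ≤ B → ∃ C Y₀ ε₀ : ℝ, 1 ≤ C ∧ 1 ≤ Y₀ ∧ 0 < ε₀ ∧
  ∀ ε : ℝ, 0 < ε → ε ≤ ε₀ → ∃ N₀ : ℝ, 1 ≤ N₀ ∧ ∀ (D n : ℕ) (b Y x a : ℝ) (g : ℂ → ℂ),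
    N₀ ≤ n → 1 ≤ b → 160 * b ≤ Y → Y₀ ≤ ε * Y → 0 < a → 0 < x → 1000 * a * Y ^ 2 ≤ ε * x →
    n * x ^ 2 ≤ 4 * B * D * a ^ 2 → NearReg C₁ ε n b Y x a g →
    NearC C n b Y x a (iteratedDeriv n (Hd D g))

/-- Near the axis, region II: `N ≥ B n`. -/
def S_NII : Prop := ∀ C₁ : ℝ, 1 ≤ C₁ → ∃ C Y₀ ε₀ B : ℝ, 1 ≤ C ∧ 1 ≤ Y₀ ∧ 0 < ε₀ ∧ 1 ≤ B ∧
  ∀ ε : ℝ, 0 < ε → ε ≤ ε₀ → ∃ N₀ : ℝ, 1 ≤ N₀ ∧ ∀ (D n : ℕ) (N b Y x a : ℝ) (g : ℂ → ℂ),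
    N₀ ≤ N → B * n ≤ N → 1 ≤ b → 160 * b ≤ Y → Y₀ ≤ ε * Y → 0 < a → 0 < x →
    1000 * a * Y ^ 2 ≤ ε * x →
    4 * D * a ^ 2 ≤ N * x ^ 2 → N * x ^ 2 ≤ 16 * D * a ^ 2 → NearReg C₁ ε N b Y x a g →
    NearC C N b Y x a (iteratedDeriv n (Hd D g))

/-! ## C. Regularity of `ff` and of its quotients -/

/-- growth of `ff` -/
def S_gr : Prop := ∃ C : ℝ, 1 ≤ C ∧ ∀ r : ℝ, 2 ≤ r → ∀ w : ℂ, ‖w‖ ≤ r →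
  ‖ff w‖ ≤ Real.exp (C * Real.sqrt r * Real.log r) * ‖ff 0‖

/-- chaining of the scales, wide form of `S_reg2` -/
def S_reg2w : Prop := ∀ (ε a l x : ℝ) (i J : ℕ), 0 < ε → 0 < a → 0 < l → i ≤ J →
  (∀ j : ℕ, i ≤ j → j ≤ J → DN.Good ε x (2 ^ j * a) l) → ∀ w v : ℂ,
  2 ^ i * a / 6 ≤ w.re → w.re ≤ 200 * (2 ^ J * a) → |w.im - x| ≤ 97 * (2 ^ i * a) →
  0 ≤ v.re → v.re ≤ 200 * (2 ^ J * a) → |v.im - x| ≤ 97 * (2 ^ i * a) →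
  LL w ≠ 0 ∧ ‖LL v‖ ≤ Real.exp (100 * ε * l * ‖v - w‖) * ‖LL w‖

/-- `ff` near the axis, at points good at all scales `2^j a/4`, `i ≤ j ≤ J`. -/
def S_nrG : Prop := ∃ C₁ V₀ : ℝ, 1 ≤ C₁ ∧ 1 ≤ V₀ ∧ ∀ ε A V : ℝ, 0 < ε → ε ≤ 1 → 1 ≤ A → V₀ ≤ V →
  ∃ l₀ : ℝ, 1 ≤ l₀ ∧ ∀ l : ℝ, l₀ ≤ l → ∀ x : ℝ, 0 < x → |Real.log x - l| ≤ 1 →
  ∀ a : ℝ, 0 < a → a ≤ A → 1 ≤ a * l →
  ∀ i J : ℕ, i ≤ J → V ≤ 2 ^ J * (a / 4) → 2 ^ J * (a / 4) ≤ 2 * V →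
  (∀ j : ℕ, i ≤ j → j ≤ J → DN.Good (ε / 800) x (2 ^ j * (a / 4)) l) →
  NearReg C₁ ε (a * l) (2 ^ i) (2000 * V / a) x a ff

/-- `ff` near the axis, large scales, all points. -/
def S_nrT : Prop := ∃ C₁ : ℝ, 1 ≤ C₁ ∧ ∀ ε Y : ℝ, 0 < ε → 1 ≤ Y → ∃ A : ℝ, 1 ≤ A ∧
  ∀ x a l : ℝ, A ≤ a → A * a ^ 2 ≤ x → |Real.log x - l| ≤ 1 →
  NearReg C₁ ε (a * l) 1 Y x a ff

/-- `ff` far from the axis. -/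
def S_FR : Prop := ∃ C₁ V T₀ : ℝ, 1 ≤ C₁ ∧ 1 ≤ V ∧ 2 ≤ T₀ ∧ ∀ z : ℂ, T₀ ≤ ‖z‖ → V ≤ |z.im| →
  FarReg C₁ ff z

/-- `ff` is log-linear far from the axis, on discs of radius `κ ‖z‖ |z.im|`. -/
def S_FRl : Prop := ∀ κ : ℝ, 0 < κ → κ ≤ 1 / 8 → ∃ V T₀ : ℝ, 1 ≤ V ∧ 2 ≤ T₀ ∧ ∀ z : ℂ, T₀ ≤ ‖z‖ →
  V ≤ |z.im| → ∃ lam : ℂ, Real.log ‖z‖ / 4 ≤ ‖lam‖ ∧ ‖lam‖ ≤ Real.log ‖z‖ ∧
    ∀ ω : ℂ, ‖ω - z ^ 2‖ ≤ κ * ‖z‖ * |z.im| →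
      |Real.log ‖ff ω‖ - Real.log ‖ff (z ^ 2)‖ - (lam * ((ω - z ^ 2) / ‖z‖)).re| ≤
        κ ^ 2 * |z.im| * Real.log ‖z‖

/-- No zeros far from the axis. -/
def S_FZ : Prop := ∀ A : ℝ, 1 ≤ A → ∃ V T₀ : ℝ, 1 ≤ V ∧ 2 ≤ T₀ ∧ ∀ (D n : ℕ) (z : ℂ), T₀ ≤ ‖z‖ →
  (n : ℝ) ≤ A * Real.log ‖z‖ → ‖z‖ ≤ D →
  V * (1 + ‖z‖ ^ 2 * Real.log ‖z‖ / D) ≤ |z.im| → iteratedDeriv n (Hd D ff) (z ^ 2) ≠ 0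

/-! ## D. The outer zeros -/

/-- product of the quadratic factors of a list of pairs -/
noncomputable def qp (s : List (ℝ × ℝ)) (w : ℂ) : ℂ :=
  (s.map fun p => (w - p.1) ^ 2 + (p.2 : ℂ) ^ 2).prod

/-- `g` is `ff` with a list of bad pairs of zeros removed. -/
def Fam (D : ℕ) (s : List (ℝ × ℝ)) (g : ℂ → ℂ) : Prop := RE g ∧
  (∀ p ∈ s, 0 < p.2 ∧ p.2 ^ 2 ≤ p.1 + 1 / 4 ∧ p.1 ^ 2 + p.2 ^ 2 < D * p.2 ^ 2) ∧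
  ∀ w, ff w = qp s w * g w

/-- the polynomial `g(d/dX) X^D` -/
noncomputable def PgP (D : ℕ) (g : ℂ → ℂ) : Polynomial ℂ :=
  ∑ k ∈ Finset.range (D + 1),
    Polynomial.C ((D.choose k : ℂ) * iteratedDeriv k g 0) * Polynomial.X ^ (D - k)

/-- The algebraic lemma. -/
def S_alg : Prop := ∀ (K : Polynomial ℂ) (a ε ρ : ℝ), K ≠ 0 → (∀ k, (K.coeff k).im = 0) → 0 < ρ →
  (∀ v ∈ K.roots, ‖v‖ ≤ 2 * ρ → v.im = 0) →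
  18 * ρ ^ 2 * ε ^ 2 + 288 * ((K.roots.filter fun v => 2 * ρ < ‖v‖).card : ℝ) + 1 <
    ((K.roots.filter fun v => ‖v‖ ≤ 2 * ρ).card : ℝ) →
  ∀ u : ℂ, ‖u‖ ≤ ρ → u.im ≠ 0 →
    (K.derivative.derivative - Polynomial.C (2 * a : ℂ) * K.derivative +
      Polynomial.C ((a : ℂ) ^ 2 + (ε : ℂ) ^ 2) * K).eval u ≠ 0

/-- Quadratic factors act as differential operators. -/
def S_pair : Prop := ∀ (D : ℕ) (g : ℂ → ℂ) (a ε : ℝ), Differentiable ℂ g →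
  PgP D (fun w => ((w - a) ^ 2 + (ε : ℂ) ^ 2) * g w) =
    (PgP D g).derivative.derivative - Polynomial.C (2 * a : ℂ) * (PgP D g).derivative +
      Polynomial.C ((a : ℂ) ^ 2 + (ε : ℂ) ^ 2) * PgP D g

/-- Relation between the two normalisations. -/
def S_PH : Prop := ∀ (D : ℕ) (g : ℂ → ℂ), 1 ≤ D → g 0 ≠ 0 →
  (PgP D g).natDegree = D ∧ PgP D g ≠ 0 ∧ (∀ u : ℂ, u ≠ 0 →
    (PgP D g).eval u = u ^ D * Hd D g (D / u)) ∧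
  ((∀ w, g (conj w) = conj (g w)) → Differentiable ℂ g → ∀ k, ((PgP D g).coeff k).im = 0)

/-- number of pairs, growth of the members of the family -/
def S_fam : Prop := ∃ C : ℝ, 1 ≤ C ∧ ∀ (D : ℕ) (s : List (ℝ × ℝ)) (g : ℂ → ℂ), 2 ≤ D →
  Fam D s g → (s.length : ℝ) ≤ C * Real.sqrt D * Real.log D ∧
    ∀ r : ℝ, 4 * D ≤ r → ∀ w : ℂ, ‖w‖ ≤ r → ‖g w‖ ≤ Real.exp (C * Real.sqrt r * Real.log r) * ‖g 0‖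

/-- number of the zeros which are not outer -/
def S_cntM : Prop := ∃ C : ℝ, 1 ≤ C ∧ ∀ (D : ℕ) (s : List (ℝ × ℝ)) (g : ℂ → ℂ) (K : ℝ), 2 ≤ D →
  4 ≤ K → Fam D s g → (((PgP D g).roots.filter fun v => 1 / K < ‖v‖).card : ℝ) ≤
    C * Real.sqrt (K * D) * Real.log (K * D)

/-- members of the family near the axis, in the annulus -/
def S_nrF : Prop := ∃ C₁ : ℝ, 1 ≤ C₁ ∧ ∀ ε Y : ℝ, 0 < ε → 1 ≤ Y → ∃ K₀ : ℝ, 16 ≤ K₀ ∧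
  ∀ K : ℝ, K₀ ≤ K → ∃ D₀ : ℝ, ∀ (D : ℕ) (s : List (ℝ × ℝ)) (g : ℂ → ℂ) (x a l : ℝ), D₀ ≤ D →
  Fam D s g → 0 < x → K * D / 4 ≤ x ^ 2 → x ^ 2 ≤ 4 * K * D → l = Real.log x →
  a = x ^ 2 * l / (8 * D) → NearReg C₁ ε (a * l) 1 Y x a g

/-- members of the family far from the axis, in the annulus -/
def S_FRF : Prop := ∃ C₁ V K₀ : ℝ, 1 ≤ C₁ ∧ 1 ≤ V ∧ 16 ≤ K₀ ∧ ∀ K : ℝ, K₀ ≤ K → ∃ D₀ : ℝ,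
  ∀ (D : ℕ) (s : List (ℝ × ℝ)) (g : ℂ → ℂ) (z : ℂ), D₀ ≤ D → Fam D s g →
  K * D / 4 ≤ ‖z‖ ^ 2 → ‖z‖ ^ 2 ≤ 4 * K * D → V ≤ |z.im| → FarReg C₁ g z

/-- The annulus is clean for all members of the family. -/
def S_ann : Prop := ∃ K₀ : ℝ, 16 ≤ K₀ ∧ ∀ K : ℝ, K₀ ≤ K → ∃ D₀ : ℝ,
  ∀ (D : ℕ) (s : List (ℝ × ℝ)) (g : ℂ → ℂ) (ω : ℂ), D₀ ≤ D → Fam D s g →
  K * D / 2 ≤ ‖ω‖ → ‖ω‖ ≤ K * D → Hd D g ω = 0 → ω.im = 0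

/-- No non-real zeros outside. -/
def S_out0 : Prop := ∃ K D₀ : ℝ, 1 ≤ K ∧ ∀ D : ℕ, D₀ ≤ D → ∀ ω : ℂ, Hd D ff ω = 0 → ω.im ≠ 0 →
  ‖ω‖ ≤ K * D

/-- The same for the derivatives. -/
def S_out : Prop := ∃ K D₀ : ℝ, 1 ≤ K ∧ ∀ D n : ℕ, D₀ ≤ D → 2 * n ≤ D → ∀ ω : ℂ,
  iteratedDeriv n (Hd D ff) ω = 0 → ω.im ≠ 0 → ‖ω‖ ≤ K * D * (Real.sqrt n + 1)

/-! ## E. Counting -/

/-- the combinatorial part, with weights -/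
def S_asmW : Prop := ∀ C₁ C₂ c : ℝ, 0 < C₁ → 0 < C₂ → 0 < c → ∃ C₃ : ℝ, 0 < C₃ ∧
  ∀ (Z P : ℂ → Prop) (m : ℂ → ℝ) (T l a N : ℝ) (J : ℕ) (G : ℝ → ℕ → Prop), 1 ≤ N → 0 < a →
  0 < l → N = a * l → 1 ≤ T → (∀ z, 0 ≤ m z) →
  (∀ x : ℝ, T ≤ x → x ≤ 2 * T → (∀ j ≤ J, G x j) → ∀ z : ℂ, Z z → z.re = x → ¬ P z) →
  (∀ x : ℝ, T ≤ x → x ≤ 2 * T → ∀ j ≤ J, 1 ≤ j → (∀ i, j ≤ i → i ≤ J → G x i) →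
    ∀ z : ℂ, Z z → z.re = x → |z.im| ≤ 2 ^ j * a) →
  (∀ x : ℝ, T ≤ x → x ≤ 2 * T → ∀ j ≤ J, 1 ≤ j → (∀ i, j ≤ i → i ≤ J → G x i) →
    ∀ S : Finset ℂ, (∀ z ∈ S, Z z ∧ |z.re - x| ≤ 2 ^ j * a ∧ |z.im| ≤ 2 ^ j * a) →
    ∑ z ∈ S, m z ≤ C₁ * 2 ^ j * N) →
  (∀ x : ℝ, T ≤ x → x ≤ 2 * T → G x J) →
  (∀ j < J, ∀ S : Finset ℤ, (∀ k ∈ S, T ≤ (k + 1) * (2 ^ j * a) ∧ k * (2 ^ j * a) ≤ 2 * T ∧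
    ∃ x ∈ Set.Icc (k * (2 ^ j * a)) ((k + 1) * (2 ^ j * a)), T ≤ x ∧ x ≤ 2 * T ∧ ¬ G x j) →
    (S.card : ℝ) ≤ C₂ * (T / (2 ^ j * a)) * Real.exp (-(c * 2 ^ j * N))) →
  ∀ S : Finset ℂ, (∀ z ∈ S, Z z ∧ P z ∧ T ≤ z.re ∧ z.re ≤ 2 * T) →
    ∑ z ∈ S, m z ≤ C₃ * T * l * Real.exp (-(c * N))

/-- one block, region I -/
def S_blkI : Prop := ∀ A B : ℝ, 1 ≤ A → 1 ≤ B → ∃ C c T₀ : ℝ, 0 < C ∧ 0 < c ∧ 2 ≤ T₀ ∧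
  ∀ (D n : ℕ) (T : ℝ), T₀ ≤ T → C ≤ n → (n : ℝ) ≤ A * Real.log T →
  T ^ 2 * Real.log T ^ 2 ≤ B * n * D → ∀ S : Finset ℂ,
    (∀ ω ∈ S, iteratedDeriv n (Hd D ff) ω = 0 ∧
      (ω.im ≠ 0 ∨ deriv (iteratedDeriv n (Hd D ff)) ω = 0) ∧ T ^ 2 ≤ ω.re ∧ ω.re ≤ 4 * T ^ 2 ∧
      ‖ω‖ ≤ D * Real.log D ^ 2) →
    ordS (iteratedDeriv n (Hd D ff)) S ≤ C * T * Real.log T * Real.exp (-(c * n))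

/-- one block, region II -/
def S_blkII : Prop := ∀ A : ℝ, 1 ≤ A → ∃ B C c T₀ : ℝ, 1 ≤ B ∧ 0 < C ∧ 0 < c ∧ 2 ≤ T₀ ∧
  ∀ (D n : ℕ) (T : ℝ), T₀ ≤ T → (n : ℝ) ≤ A * Real.log T →
  B * n * D ≤ T ^ 2 * Real.log T ^ 2 → B * D ≤ T ^ 2 * Real.log T ^ 2 →
  T * Real.log T ^ 6 ≤ D → ∀ S : Finset ℂ,
    (∀ ω ∈ S, iteratedDeriv n (Hd D ff) ω = 0 ∧
      (ω.im ≠ 0 ∨ deriv (iteratedDeriv n (Hd D ff)) ω = 0) ∧ T ^ 2 ≤ ω.re ∧ ω.re ≤ 4 * T ^ 2 ∧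
      ‖ω‖ ≤ D * Real.log D ^ 2) →
    ordS (iteratedDeriv n (Hd D ff)) S ≤
      C * T * Real.log T * Real.exp (-(c * T ^ 2 * Real.log T ^ 2 / D))

/-- small zeros -/
def S_low : Prop := ∀ A : ℝ, 1 ≤ A → ∃ C D₀ : ℝ, 1 ≤ C ∧ ∀ (D n : ℕ) (r : ℝ), D₀ ≤ D →
  (n : ℝ) ≤ A * Real.log D → 2 ≤ r → ∀ S : Finset ℂ,
    (∀ ω ∈ S, iteratedDeriv n (Hd D ff) ω = 0 ∧ ‖ω‖ ≤ r) →
    ordS (iteratedDeriv n (Hd D ff)) S ≤ C * (Real.sqrt r * Real.log r + Real.log D ^ 2)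

/-- multiple real zeros do not lie far out -/
def S_outs : Prop := ∀ A : ℝ, 1 ≤ A → ∃ K D₀ : ℝ, 1 ≤ K ∧ ∀ D n : ℕ, D₀ ≤ D →
  (n : ℝ) ≤ A * Real.log D → ∀ ω : ℂ, iteratedDeriv n (Hd D ff) ω = 0 →
  deriv (iteratedDeriv n (Hd D ff)) ω = 0 → ‖ω‖ ≤ K * D * (Real.sqrt n + 1)

/-- all zeros of the derivatives of the Jensen transform which are not real or not simple -/
def S_J : Prop := ∀ A : ℝ, 1 ≤ A → ∃ C c D₀ : ℝ, 0 < C ∧ 0 < c ∧ ∀ D n : ℕ, D₀ ≤ D →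
  (n : ℝ) ≤ A * Real.log D → ∀ S : Finset ℂ,
    (∀ ω ∈ S, iteratedDeriv n (Hd D ff) ω = 0 ∧
      (ω.im ≠ 0 ∨ deriv (iteratedDeriv n (Hd D ff)) ω = 0)) →
    ordS (iteratedDeriv n (Hd D ff)) S ≤ C * Real.sqrt D * Real.exp (-(c * n))

/-- simplicity in the range of `jensen_log` -/
def S_sim : Prop := ∃ C : ℝ, 0 < C ∧ ∀ d n : ℕ, 1 ≤ d → C * Real.log (d + 1) ≤ n →
  ∀ X : ℂ, Jen d n X = 0 → X.im = 0 ∧ deriv (Jen d n) X ≠ 0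

/-- relation to the Jensen polynomials of the sequence `gam` -/
def S_link : Prop := ∀ d n : ℕ, 1 ≤ d → ∃ c : ℂ, c ≠ 0 ∧ ∀ X : ℂ,
  Jen d n X = c * iteratedDeriv n (Hd (d + n) ff) (-((d + n : ℕ) : ℂ) * X)

/-- the final statement: number of the zeros which are not real or not simple, with
multiplicity -/
def S_fin : Prop := ∃ C c : ℝ, 0 < C ∧ 0 < c ∧ ∀ d n : ℕ, 1 ≤ d → ∀ P : Polynomial ℂ, P ≠ 0 →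
  (∀ X, P.eval X = Jen d n X) →
  ((P.roots.filter fun z => z.im ≠ 0 ∨ P.derivative.eval z = 0).card : ℝ) ≤
    C * Real.exp (-(c * n)) * Real.sqrt d

end Pool.Agent.Lib.MP_cd509c_nt.JD
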