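import Pool.Agent.Lib.MP_cd509c_nt.JD.Mom
import Pool.Agent.Lib.MP_cd509c_nt.Approx

set_option autoImplicit false

namespace Pool.Agent.Lib.MP_cd509c_nt.JD

open MeasureTheory Filter Polynomial
open scoped Nat

/-- real values of `gam` -/
noncomputable def gr (k : ℕ) : ℝ := (k ! : ℝ) / ((2 * k)! : ℝ) * MA (2 * k)

theorem gr_pos (k : ℕ) : 0 < gr k := by
  unfold gr
  have := MA_pos (2 * k)
  positivity

theorem gam_gr (k : ℕ) : gam k = ((gr k : ℝ) : ℂ) := gam_eq k

/-- ratio of consecutive coefficients -/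
theorem gr_ratio {C : ℝ} (hC : 0 < C)
    (h : ∀ k : ℕ, MA (k + 2) ≤ C * Real.log (k + 3) ^ 2 * MA k) (k : ℕ) :
    gr (k + 1) ≤ C * (2 * Real.log (k + 3)) ^ 2 / (k + 1) * gr k := by
  have h1 := h (2 * k)
  have hf : ((2 * (k + 1))! : ℝ) = (2 * k + 2) * ((2 * k + 1) * ((2 * k)! : ℝ)) := by
    rw [show 2 * (k + 1) = (2 * k + 1) + 1 by ring, Nat.factorial_succ, Nat.factorial_succ]
    push_cast; ring
  have hf2 : ((k + 1)! : ℝ) = (k + 1) * (k ! : ℝ) := by
    rw [Nat.factorial_succ]; push_cast; ring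
  have hMA := MA_pos (2 * k)
  have hk0 : (0 : ℝ) ≤ k := Nat.cast_nonneg k
  have hlog : Real.log (((2 * k : ℕ) : ℝ) + 3) ≤ 2 * Real.log (k + 3) := by
    rw [← Real.log_rpow (by positivity)]
    apply Real.log_le_log (by positivity)
    push_cast
    rw [Real.rpow_two]
    nlinarith
  have hlog0 : 0 ≤ Real.log (((2 * k : ℕ) : ℝ) + 3) := Real.log_nonneg (by push_cast; linarith)
  have h2 : MA (2 * k + 2) ≤ C * (2 * Real.log (k + 3)) ^ 2 * MA (2 * k) := by
    refine h1.trans ?_
    apply mul_le_mul_of_nonneg_right _ hMA.le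
    apply mul_le_mul_of_nonneg_left _ hC.le
    exact pow_le_pow_left₀ hlog0 hlog 2
  unfold gr
  rw [hf, hf2, show 2 * (k + 1) = 2 * k + 2 by ring]
  have hp : (0 : ℝ) < (k ! : ℝ) := by positivity
  have hq : (0 : ℝ) < ((2 * k)! : ℝ) := by positivity
  set L := C * (2 * Real.log (k + 3)) ^ 2 with hL
  have hL0 : 0 ≤ L := by positivity
  calc (k + 1) * (k ! : ℝ) / ((2 * k + 2) * ((2 * k + 1) * ((2 * k)! : ℝ))) * MA (2 * k + 2)
      ≤ (k + 1) * (k ! : ℝ) / ((2 * k + 2) * ((2 * k + 1) * ((2 * k)! : ℝ))) *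
        (L * MA (2 * k)) := mul_le_mul_of_nonneg_left h2 (by positivity)
    _ = L / (2 * (2 * k + 1)) * ((k ! : ℝ) / ((2 * k)! : ℝ) * MA (2 * k)) := by
        field_simp
    _ ≤ L / (k + 1) * ((k ! : ℝ) / ((2 * k)! : ℝ) * MA (2 * k)) := by
        apply mul_le_mul_of_nonneg_right _ (by positivity)
        apply div_le_div_of_nonneg_left hL0 (by positivity)
        linarith

/-- `log(x+3)^2/(x+1)` is almost decreasing -/
theorem log_quot (n j : ℕ) : Real.log ((n + j : ℕ) + 3) ^ 2 / (((n + j : ℕ) : ℝ) + 1) ≤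
    27 * (Real.log (j + 3) ^ 2 / (j + 1)) := by
  have hj : (0 : ℝ) ≤ j := Nat.cast_nonneg j
  have hn : (0 : ℝ) ≤ n := Nat.cast_nonneg n
  push_cast
  set A : ℝ := j + 3 with hA
  set B : ℝ := n + j + 3 with hB
  have hA0 : 0 < A := by positivity
  have hAB : A ≤ B := by rw [hA, hB]; linarith
  have hB0 : 0 < B := by positivity
  have hlA : 1 ≤ Real.log A := by
    rw [Real.le_log_iff_exp_le hA0]
    have := Real.exp_one_lt_d9
    rw [hA]; linarith
  set s : ℝ := Real.sqrt (B / A) with hs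
  have hs1 : 1 ≤ s := by
    rw [hs, Real.one_le_sqrt, le_div_iff₀ hA0]; linarith
  have hss : s ^ 2 = B / A := Real.sq_sqrt (by positivity)
  have hlB : Real.log B ≤ 3 * s * Real.log A := by
    have e : Real.log B = Real.log A + Real.log (B / A) := by
      rw [Real.log_div hB0.ne' hA0.ne']; ring
    have h2 : Real.log (B / A) ≤ 2 * s := by
      rw [← hss, Real.log_pow]
      have := Real.log_le_sub_one_of_pos (show 0 < s by linarith)
      push_cast
      linarith
    rw [e]
    nlinarith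
  have hlB0 : 0 ≤ Real.log B := Real.log_nonneg (by rw [hB]; linarith)
  have h3 : Real.log B ^ 2 ≤ 9 * (B / A) * Real.log A ^ 2 := by
    calc Real.log B ^ 2 ≤ (3 * s * Real.log A) ^ 2 := pow_le_pow_left₀ hlB0 hlB 2
      _ = 9 * s ^ 2 * Real.log A ^ 2 := by ring
      _ = _ := by rw [hss]
  have h4 : B ≤ 3 * (n + j + 1) := by rw [hB]; linarith
  have h5 : (j : ℝ) + 1 ≤ A := by rw [hA]; linarith
  have hl2 : 0 ≤ Real.log A ^ 2 := by positivity
  rw [div_le_iff₀ (by positivity)]
  calc Real.log B ^ 2 ≤ 9 * (B / A) * Real.log A ^ 2 := h3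
    _ ≤ 9 * (3 * (n + j + 1) / (j + 1)) * Real.log A ^ 2 := by
        apply mul_le_mul_of_nonneg_right _ hl2
        apply mul_le_mul_of_nonneg_left _ (by norm_num)
        exact div_le_div₀ (by positivity) h4 (by positivity) h5
    _ = _ := by ring

/-- a sum with rapidly decreasing terms -/
theorem sum_bd (t : ℕ → ℝ) (S : ℝ) (hS : 2 ≤ S) (h0 : t 0 ≤ 1) (hp : ∀ j, 0 ≤ t j)
    (hr : ∀ j : ℕ, t (j + 1) ≤ S ^ 2 * (Real.log (j + 3) / (j + 1)) ^ 2 * t j) (m : ℕ) :
    ∑ j ∈ Finset.range m, t j ≤ Real.exp (18 * S * Real.log S) := by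
  have hS0 : 0 < S := by linarith
  have hlS : 0.69 ≤ Real.log S := by
    have h1 := Real.log_two_gt_d9
    have h2 := Real.log_le_log (by norm_num) hS
    linarith
  have hlS0 : 0 < Real.log S := by linarith
  have hlSS : Real.log S ≤ S - 1 := Real.log_le_sub_one_of_pos hS0
  set J : ℕ := ⌈16 * S * Real.log S⌉₊ with hJ
  have hJ1 : 16 * S * Real.log S ≤ J := Nat.le_ceil _
  have hJ2 : (J : ℝ) < 16 * S * Real.log S + 1 := Nat.ceil_lt_add_one (by positivity)
  set L : ℝ := Real.log (J + 3) with hL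
  have hJ0 : (0 : ℝ) ≤ J := Nat.cast_nonneg J
  have hL0 : 0 ≤ L := Real.log_nonneg (by linarith)
  have hJS : (J : ℝ) + 3 ≤ S ^ 7 := by
    have h1 : (J : ℝ) + 3 ≤ 17 * S ^ 2 := by nlinarith
    have h2 : (32 : ℝ) ≤ S ^ 5 := by
      calc (32 : ℝ) = 2 ^ 5 := by norm_num
        _ ≤ S ^ 5 := pow_le_pow_left₀ (by norm_num) hS 5
    have h3 : S ^ 7 = S ^ 5 * S ^ 2 := by ring
    rw [h3]
    nlinarith [sq_nonneg S]
  have hL7 : L ≤ 7 * Real.log S := by
    have h1 := Real.log_le_log (by linarith) hJS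
    rw [Real.log_pow] at h1
    norm_num at h1
    exact h1
  have hE : ∀ j ≤ J, t j ≤ Real.exp (2 * S * L) := by
    have h1 : ∀ j ≤ J, t j ≤ ((S * L) ^ j / (j ! : ℝ)) ^ 2 := by
      intro j
      induction j with
      | zero => intro _; simpa using h0
      | succ j ih =>
        intro hj
        have h2 := ih (by omega)
        have h3 := hr j
        have h4 : Real.log (j + 3) ≤ L := by
          apply Real.log_le_log (by positivity)
          have : (j : ℝ) ≤ J := by exact_mod_cast (by omega : j ≤ J)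
          linarith
        have h5 : 0 ≤ Real.log ((j : ℝ) + 3) := Real.log_nonneg (by
          have : (0 : ℝ) ≤ j := Nat.cast_nonneg j
          linarith)
        have h6 : (Real.log ((j : ℝ) + 3) / (j + 1)) ^ 2 ≤ (L / (j + 1)) ^ 2 := by
          apply pow_le_pow_left₀ (by positivity)
          exact div_le_div_of_nonneg_right h4 (by positivity)
        calc t (j + 1) ≤ S ^ 2 * (Real.log (j + 3) / (j + 1)) ^ 2 * t j := h3
          _ ≤ S ^ 2 * (L / (j + 1)) ^ 2 * ((S * L) ^ j / (j ! : ℝ)) ^ 2 := by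
            apply mul_le_mul _ h2 (hp j) (by positivity)
            exact mul_le_mul_of_nonneg_left h6 (by positivity)
          _ = ((S * L) ^ (j + 1) / ((j + 1)! : ℝ)) ^ 2 := by
            rw [Nat.factorial_succ, pow_succ (S * L) j]
            push_cast
            field_simp
    intro j hj
    refine (h1 j hj).trans ?_
    have h2 := Real.pow_div_factorial_le_exp (S * L) (by positivity) j
    calc ((S * L) ^ j / (j ! : ℝ)) ^ 2 ≤ Real.exp (S * L) ^ 2 :=
          pow_le_pow_left₀ (by positivity) h2 2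
      _ = Real.exp (2 * S * L) := by rw [← Real.exp_nat_mul]; congr 1; push_cast; ring
  have htail : ∀ i : ℕ, t (J + i) ≤ (1 / 4) ^ i * Real.exp (2 * S * L) := by
    intro i
    induction i with
    | zero => simpa using hE J le_rfl
    | succ i ih =>
      have h3 := hr (J + i)
      set x : ℝ := ((J + i : ℕ) : ℝ) + 1 with hx
      have hx1 : 16 * S * Real.log S ≤ x := by
        rw [hx]; push_cast
        have : (0 : ℝ) ≤ i := Nat.cast_nonneg i
        linarith
      have hx0 : 0 < x := lt_of_lt_of_le (by positivity) hx1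
      have hlog : Real.log (x + 2) ≤ x / (2 * S) := by
        have e1 : Real.log (x + 2) = Real.log ((x + 2) / (8 * S)) + Real.log (8 * S) := by
          rw [← Real.log_mul (by positivity) (by positivity)]
          congr 1
          field_simp
        have e2 := Real.log_le_sub_one_of_pos (show 0 < (x + 2) / (8 * S) by positivity)
        have e3 : Real.log (8 * S) = 3 * Real.log 2 + Real.log S := by
          rw [Real.log_mul (by norm_num) hS0.ne', show (8 : ℝ) = 2 ^ 3 by norm_num, Real.log_pow]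
          push_cast; ring
        have e4 := Real.log_two_lt_d9
        have e5 : (x + 2) / (8 * S) = x / (8 * S) + 1 / (4 * S) := by field_simp; ring
        have e6 : 1 / (4 * S) ≤ 1 / 8 := by
          apply div_le_div_of_nonneg_left (by norm_num) (by norm_num)
          linarith
        have e7 : x / (2 * S) = x / (8 * S) + 3 * (x / (8 * S)) := by field_simp; ring
        have e8 : 2 * Real.log S ≤ x / (8 * S) := by
          rw [le_div_iff₀ (by positivity)]
          linarith
        rw [e1, e7, e3]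
        linarith
      have hx3 : ((J + i : ℕ) : ℝ) + 3 = x + 2 := by rw [hx]; ring
      rw [hx3] at h3
      have hq : (Real.log (x + 2) / x) ^ 2 ≤ (1 / (2 * S)) ^ 2 := by
        apply pow_le_pow_left₀ (div_nonneg (Real.log_nonneg (by linarith)) hx0.le)
        rw [div_le_iff₀ hx0]
        calc Real.log (x + 2) ≤ x / (2 * S) := hlog
          _ = _ := by ring
      have h4 : S ^ 2 * (Real.log (x + 2) / x) ^ 2 ≤ 1 / 4 := by
        calc S ^ 2 * (Real.log (x + 2) / x) ^ 2 ≤ S ^ 2 * (1 / (2 * S)) ^ 2 :=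
              mul_le_mul_of_nonneg_left hq (by positivity)
          _ = 1 / 4 := by field_simp; norm_num
      calc t (J + (i + 1)) ≤ S ^ 2 * (Real.log (x + 2) / x) ^ 2 * t (J + i) := h3
        _ ≤ 1 / 4 * ((1 / 4) ^ i * Real.exp (2 * S * L)) :=
            mul_le_mul h4 ih (hp _) (by norm_num)
        _ = _ := by rw [pow_succ]; ring
  have hgeo : ∑ i ∈ Finset.range m, ((1 : ℝ) / 4) ^ i ≤ 2 := by
    rw [geom_sum_eq (by norm_num)]
    have : (0 : ℝ) ≤ (1 / 4) ^ m := by positivity
    rw [div_le_iff_of_neg (by norm_num)]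
    linarith
  calc ∑ j ∈ Finset.range m, t j ≤ ∑ j ∈ Finset.range (J + m), t j :=
        Finset.sum_le_sum_of_subset_of_nonneg
          (fun a ha => Finset.mem_range.2 (by have := Finset.mem_range.1 ha; omega))
          (fun j _ _ => hp j)
    _ = ∑ j ∈ Finset.range J, t j + ∑ i ∈ Finset.range m, t (J + i) :=
        Finset.sum_range_add _ _ _
    _ ≤ J * Real.exp (2 * S * L) + 2 * Real.exp (2 * S * L) := by
        apply add_le_add
        · calc ∑ j ∈ Finset.range J, t j ≤ ∑ _j ∈ Finset.range J, Real.exp (2 * S * L) :=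
                Finset.sum_le_sum (fun j hj => hE j (Finset.mem_range.1 hj).le)
            _ = _ := by rw [Finset.sum_const, Finset.card_range, nsmul_eq_mul]
        · calc ∑ i ∈ Finset.range m, t (J + i)
              ≤ ∑ i ∈ Finset.range m, (1 / 4) ^ i * Real.exp (2 * S * L) :=
                Finset.sum_le_sum (fun i _ => htail i)
            _ = (∑ i ∈ Finset.range m, ((1 : ℝ) / 4) ^ i) * Real.exp (2 * S * L) := by
                rw [Finset.sum_mul]
            _ ≤ _ := mul_le_mul_of_nonneg_right hgeo (Real.exp_pos _).le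
    _ = (J + 2) * Real.exp (2 * S * L) := by ring
    _ ≤ Real.exp (7 * Real.log S) * Real.exp (2 * S * (7 * Real.log S)) := by
        apply mul_le_mul
        · calc (J : ℝ) + 2 ≤ S ^ 7 := by linarith
            _ = Real.exp (7 * Real.log S) := by
              rw [show (7 : ℝ) * Real.log S = ((7 : ℕ) : ℝ) * Real.log S by norm_num,
                Real.exp_nat_mul, Real.exp_log hS0]
        · exact Real.exp_le_exp.mpr (mul_le_mul_of_nonneg_left hL7 (by linarith))
        · exact (Real.exp_pos _).le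
        · exact (Real.exp_pos _).le
    _ = Real.exp (7 * Real.log S + 2 * S * (7 * Real.log S)) := by rw [← Real.exp_add]
    _ ≤ Real.exp (18 * S * Real.log S) := by
        apply Real.exp_le_exp.mpr
        nlinarith

/-- Jensen's formula for polynomials -/
theorem poly_count (q : ℂ[X]) (h0 : q.eval 0 ≠ 0) {ρ M : ℝ} (hρ : 0 < ρ)
    (hM : ∀ w : ℂ, ‖w‖ ≤ 4 * ρ → ‖q.eval w‖ ≤ M) (s : Multiset ℂ) (hs : s ≤ q.roots)
    (hsρ : ∀ z ∈ s, ‖z‖ ≤ ρ) : (3 : ℝ) ^ (s.card) * ‖q.eval 0‖ ≤ M := by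
  have hq : q ≠ 0 := by rintro rfl; simp at h0
  obtain ⟨B, hB⟩ := (Multiset.prod_X_sub_C_dvd_iff_le_roots hq s).2 hs
  set Q := (s.map (fun r => X - C r)).prod with hQ
  set n := s.card with hn
  have hg0 : ‖B.eval 0‖ ≤ M / (3 * ρ) ^ n := by
    have hd : DiffContOnCl ℂ (fun w => B.eval w) (Metric.ball (0 : ℂ) (4 * ρ)) :=
      B.differentiable.diffContOnCl
    apply Complex.norm_le_of_forall_mem_frontier_norm_le Metric.isBounded_ball hd
    · intro w hw
      rw [frontier_ball (0 : ℂ) (by positivity), mem_sphere_zero_iff_norm] at hw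
      have h1 := hM w hw.le
      rw [hB, eval_mul, norm_mul] at h1
      have h2 : (3 * ρ) ^ n ≤ ‖Q.eval w‖ := by
        apply norm_prod_ge _ _ _ (by positivity)
        intro z hz
        have := norm_sub_norm_le w z
        linarith [hsρ z hz]
      rw [le_div_iff₀ (by positivity)]
      calc ‖B.eval w‖ * (3 * ρ) ^ n ≤ ‖B.eval w‖ * ‖Q.eval w‖ := by gcongr
        _ = ‖Q.eval w‖ * ‖B.eval w‖ := by ring
        _ ≤ M := h1
    · rw [closure_ball (0 : ℂ) (by positivity)]
      simp [hρ.le]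
  have hQ0 : ‖Q.eval 0‖ ≤ ρ ^ n := by
    apply norm_prod_le _ _ _ hρ.le
    intro z hz
    rw [zero_sub, norm_neg]
    exact hsρ z hz
  have hf0 : ‖q.eval 0‖ = ‖Q.eval 0‖ * ‖B.eval 0‖ := by
    rw [hB, eval_mul, norm_mul]
  have hM0 : 0 ≤ M := (norm_nonneg _).trans (hM 0 (by simp [hρ.le]))
  calc (3 : ℝ) ^ n * ‖q.eval 0‖ = 3 ^ n * (‖Q.eval 0‖ * ‖B.eval 0‖) := by rw [hf0]
    _ ≤ 3 ^ n * (ρ ^ n * (M / (3 * ρ) ^ n)) := by gcongr
    _ = M := by
      rw [mul_pow]
      field_simp

/-- The Jensen polynomial. -/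
noncomputable def Jp (d n : ℕ) : ℂ[X] :=
  ∑ j ∈ Finset.range (d + 1), C ((d.choose j : ℂ) * gam (n + j)) * X ^ j

theorem Jp_eval (d n : ℕ) (z : ℂ) : (Jp d n).eval z = Jen d n z := by
  unfold Jp Jen
  rw [eval_finsetSum]
  apply Finset.sum_congr rfl
  intro j _
  rw [eval_mul, eval_C, eval_pow, eval_X]

theorem Jp_zero (d n : ℕ) : (Jp d n).eval 0 = gam n := by
  rw [Jp_eval]
  unfold Jen
  rw [Finset.sum_eq_single_of_mem 0 (by simp)]
  · simp
  · intro b _ hb
    rw [zero_pow hb, mul_zero]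

/-- Growth, uniform in `d` and `n`. -/
theorem Jen_growth : ∃ K : ℝ, 0 < K ∧ ∀ (d n : ℕ) (T : ℝ) (w : ℂ), 2 ≤ T →
    ‖w‖ * (d + n) ≤ 4 * T ^ 2 → ‖Jen d n w‖ ≤ ‖gam n‖ * Real.exp (K * T * Real.log T) := by
  obtain ⟨C, hC, hmom⟩ := mom_le
  set S₀ : ℝ := Real.sqrt (432 * C) + 1 with hS₀
  have hS₀1 : 1 ≤ S₀ := by
    have := Real.sqrt_nonneg (432 * C)
    linarith
  have hSC : 432 * C ≤ S₀ ^ 2 := by
    have h1 := Real.sq_sqrt (show 0 ≤ 432 * C by positivity)
    have h2 := Real.sqrt_nonneg (432 * C)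
    rw [hS₀]; nlinarith
  have hlS₀ : 0 ≤ Real.log S₀ := Real.log_nonneg hS₀1
  refine ⟨18 * S₀ * (1 + 2 * Real.log S₀), by positivity, ?_⟩
  intro d n T w hT hw
  have hT0 : 0 < T := by linarith
  have hlT : 1 / 2 ≤ Real.log T := by
    have h1 := Real.log_two_gt_d9
    have h2 := Real.log_le_log (by norm_num) hT
    linarith
  have hg : ∀ k, 0 < gr k := gr_pos
  have hgn : ‖gam n‖ = gr n := by
    rw [gam_gr, Complex.norm_real, Real.norm_of_nonneg (hg n).le]
  rcases Nat.eq_zero_or_pos (d + n) with hdn | hdn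
  · have hd : d = 0 := by omega
    subst hd
    have h1 : Jen 0 n w = gam n := by
      unfold Jen
      simp
    rw [h1]
    have h2 : (1 : ℝ) ≤ Real.exp (18 * S₀ * (1 + 2 * Real.log S₀) * T * Real.log T) :=
      Real.one_le_exp (by positivity)
    have h3 := norm_nonneg (gam n)
    nlinarith
  have hN : (0 : ℝ) < (d : ℝ) + n := by exact_mod_cast hdn
  set ρ : ℝ := T ^ 2 / (d + n) with hρ
  have hρ0 : 0 < ρ := by positivity
  have hwρ : ‖w‖ ≤ 4 * ρ := by
    rw [hρ, ← mul_div_assoc, le_div_iff₀ hN]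
    exact hw
  -- the majorant
  set t : ℕ → ℝ := fun j => (d.choose j : ℝ) * (gr (n + j) / gr n) * (4 * ρ) ^ j with ht
  have ht0 : ∀ j, 0 ≤ t j := fun j => by
    have h1 := hg (n + j)
    have h2 := hg n
    simp only [ht]
    positivity
  set S : ℝ := S₀ * T with hS
  have hS2 : 2 ≤ S := by rw [hS]; nlinarith
  have hr : ∀ j : ℕ, t (j + 1) ≤ S ^ 2 * (Real.log (j + 3) / (j + 1)) ^ 2 * t j := by
    intro j
    have h1 := gr_ratio hC hmom (n + j)
    have h2 := log_quot n j
    have hc : ((d.choose (j + 1) : ℕ) : ℝ) * (j + 1) = (d.choose j : ℝ) * ((d - j : ℕ) : ℝ) := by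
      exact_mod_cast Nat.choose_succ_right_eq d j
    have hdj : ((d - j : ℕ) : ℝ) ≤ d + n := by
      have : ((d - j : ℕ) : ℝ) ≤ d := by exact_mod_cast Nat.sub_le d j
      have : (0 : ℝ) ≤ n := Nat.cast_nonneg n
      linarith
    have hcc : ((d.choose (j + 1) : ℕ) : ℝ) ≤ (d.choose j : ℝ) * (d + n) / (j + 1) := by
      rw [le_div_iff₀ (by positivity), hc]
      exact mul_le_mul_of_nonneg_left hdj (Nat.cast_nonneg _)
    have hgn' := hg n
    have hgj := hg (n + j)
    have h3 : gr (n + (j + 1)) ≤ C * 4 * (27 * (Real.log (j + 3) ^ 2 / (j + 1))) * gr (n + j) := by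
      rw [← add_assoc]
      refine h1.trans ?_
      apply mul_le_mul_of_nonneg_right _ hgj.le
      calc C * (2 * Real.log (((n + j : ℕ) : ℝ) + 3)) ^ 2 / (((n + j : ℕ) : ℝ) + 1)
          = C * 4 * (Real.log (((n + j : ℕ) : ℝ) + 3) ^ 2 / (((n + j : ℕ) : ℝ) + 1)) := by ring
        _ ≤ _ := mul_le_mul_of_nonneg_left h2 (by positivity)
    calc t (j + 1) = ((d.choose (j + 1) : ℕ) : ℝ) * gr (n + (j + 1)) * ((4 * ρ) ^ (j + 1) / gr n) := by
          simp only [ht]; ring
      _ ≤ ((d.choose j : ℝ) * (d + n) / (j + 1)) *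
          (C * 4 * (27 * (Real.log (j + 3) ^ 2 / (j + 1))) * gr (n + j)) *
            ((4 * ρ) ^ (j + 1) / gr n) := by
          apply mul_le_mul_of_nonneg_right _ (by positivity)
          exact mul_le_mul hcc h3 (hg _).le (by positivity)
      _ = 432 * C * T ^ 2 * (Real.log (j + 3) / (j + 1)) ^ 2 * t j := by
          simp only [ht, hρ]
          rw [pow_succ (4 * (T ^ 2 / ((d : ℝ) + n))) j]
          field_simp
          ring
      _ ≤ S ^ 2 * (Real.log (j + 3) / (j + 1)) ^ 2 * t j := by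
          apply mul_le_mul_of_nonneg_right _ (ht0 j)
          apply mul_le_mul_of_nonneg_right _ (by positivity)
          rw [hS, mul_pow]
          exact mul_le_mul_of_nonneg_right hSC (by positivity)
  have hsum := sum_bd t S hS2 (by simp [ht, (hg n).ne']) ht0 hr (d + 1)
  have hlS : Real.log S = Real.log S₀ + Real.log T := by
    rw [hS, Real.log_mul (by positivity) hT0.ne']
  have h9 : Real.log S₀ + Real.log T ≤ (1 + 2 * Real.log S₀) * Real.log T := by
    nlinarith
  have hfin : 18 * S * Real.log S ≤ 18 * S₀ * (1 + 2 * Real.log S₀) * T * Real.log T := by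
    rw [hlS, hS]
    calc 18 * (S₀ * T) * (Real.log S₀ + Real.log T)
        ≤ 18 * (S₀ * T) * ((1 + 2 * Real.log S₀) * Real.log T) :=
          mul_le_mul_of_nonneg_left h9 (by positivity)
      _ = _ := by ring
  unfold Jen
  rw [hgn]
  calc ‖∑ j ∈ Finset.range (d + 1), (d.choose j : ℂ) * gam (n + j) * w ^ j‖
      ≤ ∑ j ∈ Finset.range (d + 1), gr n * t j := by
        refine (norm_sum_le _ _).trans (Finset.sum_le_sum fun j _ => ?_)
        rw [norm_mul, norm_mul, norm_pow, Complex.norm_natCast, gam_gr, Complex.norm_real,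
          Real.norm_of_nonneg (hg _).le]
        have h5 : ‖w‖ ^ j ≤ (4 * ρ) ^ j := pow_le_pow_left₀ (norm_nonneg _) hwρ j
        have h6 := hg (n + j)
        have h7 := hg n
        calc (d.choose j : ℝ) * gr (n + j) * ‖w‖ ^ j ≤ (d.choose j : ℝ) * gr (n + j) * (4 * ρ) ^ j :=
              mul_le_mul_of_nonneg_left h5 (by positivity)
          _ = gr n * t j := by simp only [ht]; field_simp
    _ = gr n * ∑ j ∈ Finset.range (d + 1), t j := by rw [Finset.mul_sum]
    _ ≤ gr n * Real.exp (18 * S * Real.log S) := mul_le_mul_of_nonneg_left hsum (hg n).le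
    _ ≤ _ := mul_le_mul_of_nonneg_left (Real.exp_le_exp.mpr hfin) (hg n).le

/-- **Total number of roots.** -/
theorem Jp_total : ∃ K : ℝ, 0 < K ∧ ∀ (d n : ℕ) (T : ℝ) (s : Multiset ℂ), 2 ≤ T →
    s ≤ (Jp d n).roots → (∀ X ∈ s, ‖X‖ * (d + n) ≤ T ^ 2) → (s.card : ℝ) ≤ K * T * Real.log T := by
  obtain ⟨K, hK, hgr⟩ := Jen_growth
  refine ⟨K, hK, ?_⟩
  intro d n T s hT hs hsT
  have hT0 : 0 < T := by linarith
  have hlT : 0 < Real.log T := Real.log_pos (by linarith)
  rcases Nat.eq_zero_or_pos (d + n) with hdn | hdn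
  · have hd : d = 0 := by omega
    subst hd
    have h1 : Jp 0 n = C (gam n) := by
      unfold Jp
      simp
    rw [h1, roots_C] at hs
    have : s = 0 := by simpa using hs
    rw [this]
    simp only [Multiset.card_zero, Nat.cast_zero]
    positivity
  have hN : (0 : ℝ) < (d : ℝ) + n := by exact_mod_cast hdn
  have hg0 : 0 < ‖gam n‖ := norm_pos_iff.mpr (gam_ne_zero n)
  have key := poly_count (Jp d n) (by rw [Jp_zero]; exact gam_ne_zero n)
    (ρ := T ^ 2 / (d + n)) (M := ‖gam n‖ * Real.exp (K * T * Real.log T)) (by positivity)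
    (by
      intro w hw
      rw [Jp_eval]
      apply hgr d n T w hT
      rwa [← mul_div_assoc, le_div_iff₀ hN] at hw) s hs
    (fun z hz => by rw [le_div_iff₀ hN]; exact hsT z hz)
  rw [Jp_zero, mul_comm] at key
  have key2 := le_of_mul_le_mul_left key hg0
  have key3 : (s.card : ℝ) * Real.log 3 ≤ K * T * Real.log T := by
    have h1 := Real.log_le_log (by positivity) key2
    rwa [Real.log_pow, Real.log_exp] at h1
  have hl3 : 1 ≤ Real.log 3 := by
    rw [Real.le_log_iff_exp_le (by norm_num)]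
    have := Real.exp_one_lt_d9
    linarith
  have : (0 : ℝ) ≤ s.card := Nat.cast_nonneg _
  nlinarith

end Pool.Agent.Lib.MP_cd509c_nt.JD
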