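import Pool.Agent.Lib.MP_cd509c_nt.JD.Defs
import Pool.Agent.Lib.MP_cd509c_nt.JD.Tot

/-!
# Project JD: simple zeros, auxiliary statements (helper49)
-/

set_option autoImplicit false

namespace Pool.Agent.Lib.MP_cd509c_nt.JD

open Polynomial

theorem Jp_coeff (d n k : ℕ) : (Jp d n).coeff k = (d.choose k : ℂ) * gam (n + k) := by
  unfold Jp
  rw [finsetSum_coeff]
  simp only [coeff_C_mul, coeff_X_pow]
  rcases Nat.lt_or_ge d k with h | h
  · rw [Nat.choose_eq_zero_of_lt h]
    simp only [Nat.cast_zero, zero_mul]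
    apply Finset.sum_eq_zero
    intro j hj
    rw [Finset.mem_range] at hj
    rw [if_neg (by omega), mul_zero]
  · rw [Finset.sum_eq_single_of_mem k (Finset.mem_range.2 (by omega))]
    · simp
    · intro j _ hj
      rw [if_neg (fun h => hj h.symm), mul_zero]

theorem Jp_natDegree (d n : ℕ) : (Jp d n).natDegree = d := by
  apply natDegree_eq_of_le_of_coeff_ne_zero
  · rw [natDegree_le_iff_coeff_eq_zero]
    intro k hk
    rw [Jp_coeff, Nat.choose_eq_zero_of_lt hk]
    simp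
  · rw [Jp_coeff, Nat.choose_self]
    simpa using gam_ne_zero (n + d)

theorem Jp_ne (d n : ℕ) : Jp d n ≠ 0 := by
  intro h
  have := Jp_zero d n
  rw [h, eval_zero] at this
  exact gam_ne_zero n this.symm

theorem Jp_card (d n : ℕ) : (Jp d n).roots.card = d := by
  rw [splits_iff_card_roots.mp (IsAlgClosed.splits (Jp d n)), Jp_natDegree]

theorem Jp_deriv (d n : ℕ) (X : ℂ) : deriv (Jen d n) X = (Jp d n).derivative.eval X := by
  have e : Jen d n = fun z => (Jp d n).eval z := by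
    funext z; rw [Jp_eval]
  rw [e, Polynomial.deriv]

/-- [JD dbl] A double zero of `Jen d n` is a zero of order `m + 2` of `Jen (d + m) n`, or it is not a
zero of some `Jen (d + k) n` and then there is a relation between the zeros.

Proof. Write `P k = Jp (d + k) n`. Coefficients: `(d+k+1) P k = (d+k+1) P (k+1) - X (P (k+1))'`.
Induction on `m`: for `m = 0` the second alternative holds. Step: if the first alternative holds for `m` it holds for
`m + 1`. Otherwise `P m` has a zero of order `≥ m + 2` at `X₀`. If `P (m+1)` vanishes at `X₀`, to order `μ ≥ 1`, then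
`(d+m+1) P (m+1) - X (P (m+1))'` has order exactly `μ - 1` at `X₀ ≠ 0`, so `μ = ord (P m) + 1 ≥ m + 3`. If `Q = P (m+1)` does
not vanish at `X₀`, put `e = d + m + 1`: `e Q = X₀ Q'` and, differentiating, `(e - 1) Q' = X₀ Q''` at `X₀`, so
`∑ 1/(X₀ - X) = Q'/Q = e/X₀`, `∑ 1/(X₀ - X)² = (Q'/Q)² - Q''/Q = e/X₀²` over the `e` roots `X` of `Q`, and
`∑ (X/(X₀-X))² = ∑ (X₀/(X₀-X) - 1)² = e - 2 e + e = 0`. -/
def S_dbl : Prop := ∀ (d n m : ℕ) (X₀ : ℂ), 1 ≤ d → Jen d n X₀ = 0 → deriv (Jen d n) X₀ = 0 →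
  (∃ k : ℕ, 1 ≤ k ∧ k ≤ m ∧ Jen (d + k) n X₀ ≠ 0 ∧
    ((Jp (d + k) n).roots.map fun X => (X / (X₀ - X)) ^ 2).sum = 0) ∨
  m + 2 ≤ (Jp (d + m) n).rootMultiplicity X₀

end Pool.Agent.Lib.MP_cd509c_nt.JD
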