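import Pool.Agent.Lib.MP_cd509c_nt.JD.Defs

/-!
# JD, kernel part and regularity of `ff`: sub-pieces with proofs in words (helper84)

Notation: `om x a w = x² - 2iaxw`; a rotation `ω ↦ ω e^{iφ}`, `φ = -2av/x`, is `w ↦ Wp x a w v ≈ w + v`; the kernel is
`kD D (-2av/x) ≈ exp (-N v²/(2β))`, `β = bet D N x a = N x²/(4 D a²)`, so `N/β = 4 D a²/x²` and
`(2a/x) √(β/N) = 1/√D`. In every piece `p_x` of a statement `S_x` the results used are hypotheses, in the order listed in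
the docstring, e.g. `theorem p_RT (h1 : S_RTupp) (h2 : S_RTlow) (h3 : S_RTtail) (h4 : S_up) : S_RT`.
-/

set_option autoImplicit false

namespace Pool.Agent.Lib.MP_cd509c_nt.JD

open Complex ComplexConjugate MeasureTheory
open Pool.Agent.Lib.MP_cd509c_nt.DN

/-- `β = N x² / (4 D a²)` -/
noncomputable def bet (D : ℕ) (N x a : ℝ) : ℝ := N * x ^ 2 / (4 * D * a ^ 2)

/-- the rotation by the angle `-2av/x` in the local coordinate -/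
noncomputable def Wp (x a : ℝ) (w v : ℂ) : ℂ :=
  w * cexp (-(2 * a * v / x * I)) + I * x / (2 * a) * (cexp (-(2 * a * v / x * I)) - 1)

/-- the integrand of `S_rep` at `om x a w`, in the variable `v`, `φ = -2av/x` -/
noncomputable def FF (D : ℕ) (x a : ℝ) (g : ℂ → ℂ) (w v : ℂ) : ℂ :=
  kD D (-(2 * a * v / x)) * g (om x a w * cexp (-(2 * a * v / x * I)))

/-- the hypotheses of `S_RT` -/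
structure Ctx (C₁ B Y₀ ε : ℝ) (D : ℕ) (N b Y x a : ℝ) (g : ℂ → ℂ) : Prop where
  e0 : 0 < ε
  e1 : ε ≤ 1 / 100
  N1 : 1 ≤ N
  b1 : 1 ≤ b
  Yb : 160 * b ≤ Y
  Y0 : Y₀ ≤ ε * Y
  a0 : 0 < a
  x0 : 0 < x
  ax : 1000 * a * Y ^ 2 ≤ ε * x
  D1 : 1 ≤ D
  bB : N * x ^ 2 ≤ 4 * B * D * a ^ 2
  reg : NearReg C₁ ε N b Y x a g

/-- the region of the reference points -/
def R1 (b Y : ℝ) (w : ℂ) : Prop := 3 * b / 16 ≤ w.re ∧ w.re ≤ Y / 4 + b ∧ |w.im| ≤ 21 * b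

/-- the region of the target points -/
def R0 (b Y : ℝ) (w : ℂ) : Prop := 0 ≤ w.re ∧ w.re ≤ Y / 4 + b ∧ |w.im| ≤ 21 * b

/- [JD KL] `S_KL` (Defs) uses S_lapH of DN: theorem p_KL (h : S_lapH) : S_KL. Proof. `q = F'/F`, `e v = q v / N - (1 - v/β)`, holomorphic in the interior of the rectangle `Q`, `‖e v‖ ≤ ε (1 + ‖v‖/β)`.
(a) For `v ∈ Q`, `u = v - β`: integrating `q` along the segment, `|log ‖F v‖ - log ‖F β‖ + N Re (u²)/(2β)| ≤ εN (2‖u‖ + ‖u‖²/β)`, and `2ε‖u‖ ≤ ‖u‖²/(32β) + 32βε²`; upper bound of `∫ ‖F‖` by the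
Gaussian integral. (b) `‖v - β‖ ≤ 1/64`: Cauchy with radius `1/32`: `‖e' v‖ ≤ C_B ε/β`. (c) saddle point `p`: the map `v ↦ β (1 + e v)` is a contraction of the ball `‖v - β‖ ≤ 1/64` for `ε ≤ ε₀(B)`; its fixed
point satisfies `q p = 0` and `‖p - β‖ ≤ ε (β + ‖p‖)`, so `‖p - β‖ ≤ 3εβ`. (d) `F (p + u) = F p exp (-N u²/(2β) + E)`, `‖E‖ ≤ C_B ε (N/β) u²` for real `|u| ≤ 1/128`; with `u = t/32`: S_lapH with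
`N/(1024 β)` in the place of `N`: `‖∫_{|u| ≤ 1/128}‖ ≥ ‖F p‖ √(β/N)`. (e) `h = Im p`, Cauchy: `∫_{v₁}^L = ∫_{v₁}^{v₁+ih} + ∫_{v₁+ih}^{L+ih} - ∫_L^{L+ih}`; by (a) the rest of the line and the two vertical
segments contribute at most `(C e^{-c_B N/β} + C e^{-c_B N}) √(β/N) ‖F β‖` (`β - v₁ ≥ 1/16`, `L - β ≥ 1`; on the vertical segments `‖F‖ ≤ e^{-c N/β}‖F β‖` and `e^{-cy} ≤ y^{-1/2}/8` for `y = N/β ≥ N/B` large).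
(f) `‖F p‖ ≥ e^{-CεN} ‖F β‖` by (a) and `‖p - β‖ ≤ 3εβ`. (The saddle point and the shift are done in `DN/P/sadH.lean`, `DN/P/loH.lean`.) -/

/-! ## 1. Geometry -/

/-- [JD wp] The rotation in the local coordinate. Proof. Put `E = exp(-iq)`, `q = 2av/x`, `‖q‖ ≤ 1/4`. First claim: ring identity
(`field_simp`). Second: `Wp - (w + v) = w (E - 1) + (ix/2a) (E - 1 + iq)`, `‖E - 1‖ ≤ 1.2 ‖q‖`, `‖E - 1 + iq‖ ≤ 0.65 ‖q‖²`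
(`Complex.norm_exp_sub_one_sub_id_le` gives `‖q‖²`, enough: `(x/2a) (2a‖v‖/x)² = 2a‖v‖²/x`). Third: derivative. Fourth: the difference is
`(E - 1) - 2iaw E/x`. -/
def S_wp : Prop := ∀ (x a : ℝ) (w v : ℂ), 0 < a → 0 < x → 8 * a * ‖v‖ ≤ x →
  om x a w * cexp (-(2 * a * v / x * I)) = om x a (Wp x a w v) ∧
  ‖Wp x a w v - (w + v)‖ ≤ 4 * a * ‖v‖ * (‖v‖ + ‖w‖) / x ∧
  HasDerivAt (Wp x a w) (cexp (-(2 * a * v / x * I)) * (1 - 2 * I * a * w / x)) v ∧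
  ‖cexp (-(2 * a * v / x * I)) * (1 - 2 * I * a * w / x) - 1‖ ≤ 4 * a * (‖v‖ + ‖w‖) / x

/-- [JD kr] The kernel. `β = bet D N x a`. Proof. `kD D (-q) = exp (D (e^{-iq} - 1 + iq))`, `q = 2av/x`, and `D q²/2 = N v²/(2β)`
(`N/β = 4Da²/x²`). (1) `‖q‖ ≤ 1/4`: `‖e^{-iq} - 1 + iq + q²/2‖ ≤ ‖q‖³/5` and `D ‖q‖³/5 = (N/β) (2a/5x) ‖v‖³`. (2) the derivative of
`D (e^{-iq} - 1 + iq)` is `D (-2ia/x) (e^{-iq} - 1)`, compare with `-(N/β) v = D (-2ia/x) (-iq)`. (3) real `v`: `‖kD‖ = exp (-D (1 - cos q))`,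
`1 - cos q ≥ 2q²/π²` for `|q| ≤ π`, `2/π² ≥ 1/5`. (4) `1 - cos q ≥ q²/2 (1 - q²/12)`. -/
def S_kr : Prop := ∀ (D : ℕ) (N x a : ℝ), 1 ≤ D → 0 < N → 0 < a → 0 < x →
  (∀ v : ℂ, 8 * a * ‖v‖ ≤ x → (∃ κ : ℂ, ‖κ‖ ≤ N / bet D N x a * (a / x) * ‖v‖ ^ 3 ∧
    kD D (-(2 * a * v / x)) = cexp (-(N * v ^ 2 / (2 * bet D N x a)) + κ)) ∧
    ∃ κ' : ℂ, ‖κ'‖ ≤ 2 * (N / bet D N x a) * (a / x) * ‖v‖ ^ 2 ∧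
    HasDerivAt (fun v : ℂ => kD D (-(2 * a * v / x)))
      (kD D (-(2 * a * v / x)) * (-(N * v / bet D N x a) + κ')) v) ∧
  (∀ v : ℝ, 2 * a * |v| ≤ Real.pi * x →
    ‖kD D (-(2 * a * v / x))‖ ≤ Real.exp (-(N * v ^ 2 / (5 * bet D N x a))) ∧
    ‖kD D (-(2 * a * v / x))‖ ≤
      Real.exp (-(N * v ^ 2 / (2 * bet D N x a) * (1 - (2 * a * v / x) ^ 2 / 12))))

/-- [JD ld] Logarithmic derivative. Proof. Put `G v = g (om x a v)`, `q = G'(w)/G(w) - N`. For real `θ` and small `t > 0` the bound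
`lin` with `v = w + t e^{iθ}` gives `‖G v‖/‖G w‖ ≤ exp (N t cos θ + ε N t)`; both sides are `1` at `t = 0`, so the right derivative
satisfies `Re (e^{iθ} G'(w)/G(w)) ≤ N cos θ + ε N`, i.e. `Re (e^{iθ} q) ≤ ε N`; take `θ = -arg q`. -/
def S_ld : Prop := ∀ (C₁ ε N b Y x a : ℝ) (g : ℂ → ℂ), 0 < ε → 0 < N → 0 < b →
  NearReg C₁ ε N b Y x a g → ∀ w : ℂ, b / 16 < w.re → w.re < Y → |w.im| < 24 * b →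
  ‖deriv (fun v => g (om x a v)) w / g (om x a w) - N‖ ≤ ε * N

/-- [JD Fd] (uses wp, kr, ld) Proof. `w' = Wp x a w v` satisfies `‖w' - (w + v)‖ ≤ 4a‖v‖(‖v‖+‖w‖)/x ≤ ε/50` (`‖v‖ ≤ 9B ≤ Y`, `‖w‖ ≤ Y`), so
`b/16 < w'.re < Y`, `|w'.im| < 24b` (`3b/16 - 1/10 - ε/50 > b/16`). `FF = kD(..) * G (w')`, `G v = g (om x a v)`; logarithmic derivative
`-(N/β) v + κ' + (N + e) (1 + e')`, `‖κ'‖ ≤ 2(N/β)(a/x)‖v‖² ≤ ε (N/β)‖v‖`, `‖e‖ ≤ εN`, `‖e'‖ ≤ 4a(‖v‖+‖w‖)/x ≤ ε/50`. -/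
def S_Fd : Prop := ∀ B : ℝ, 1 ≤ B → ∃ Y₀ : ℝ, 1 ≤ Y₀ ∧ ∀ (C₁ ε : ℝ) (D : ℕ) (N b Y x a : ℝ)
  (g : ℂ → ℂ), Ctx C₁ B Y₀ ε D N b Y x a g → ∀ w : ℂ, R1 b Y w → ∀ v : ℂ, -(1 / 10) ≤ v.re →
  v.re ≤ 8 * B → |v.im| ≤ 1 / 8 →
  DifferentiableAt ℂ (FF D x a g w) v ∧ FF D x a g w v ≠ 0 ∧
    ‖deriv (FF D x a g w) v / FF D x a g w v - N * (1 - v / bet D N x a)‖ ≤
      2 * ε * N * (1 + ‖v‖ / bet D N x a)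

/-! ## 2. Pointwise bounds of the integrand -/

/-- [JD ptU] (uses wp, kr) Near part, `v` real. Proof. `w' = Wp x a v₀ v`, `‖w' - (v₀ + v)‖ ≤ ε/100`, so `|w'.im| ≤ 24b`, `|w'.re| ≤ Y`.
If `0 ≤ w'.re` put `w'' = w'`, otherwise `w'' = -conj w'`; `‖g (om x a w'')‖ = ‖g (om x a w')‖` because `om x a (-conj w') = conj (om x a w')` and
`g` is real. `lin` with `w`, `w''`: `‖g (om w')‖ ≤ exp (N (|w'.re| - w.re) + εN ‖w'' - w‖) ‖g (om w)‖`, `|w'.re| ≤ v₀.re + |v| + ε/100`,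
`‖w'' - w‖ ≤ ‖v₀ - w‖ + |v| + ε/25` (in the reflected case `v₀.re ≤ |v| + ε/100`, so `|w''.re - w.re| ≤ |v₀.re - w.re| + |v| + ..`).
Kernel: second bound of kr, `(2av/x)²/12 ≤ ε`. -/
def S_ptU : Prop := ∀ (C₁ B : ℝ), 1 ≤ C₁ → 1 ≤ B → ∃ Y₀ : ℝ, 1 ≤ Y₀ ∧ ∀ (ε : ℝ) (D : ℕ)
  (N b Y x a : ℝ) (g : ℂ → ℂ), Ctx C₁ B Y₀ ε D N b Y x a g → ∀ w : ℂ, R1 b Y w → ∀ v₀ : ℂ,
  R0 b Y v₀ → ∀ v : ℝ, |v| ≤ Y / 2 → ‖FF D x a g v₀ v‖ ≤ ‖g (om x a w)‖ *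
    Real.exp (N * (v₀.re - w.re) + 2 * ε * N * (‖v₀ - w‖ + 1) +
      N * ((1 + 2 * ε) * |v| - (1 - ε) * v ^ 2 / (2 * bet D N x a)))

/-- [JD ptL] (uses wp, kr) Left part, `v₀ = w`, `v ≤ -1/10`: as ptU, but now `|w'.re| - w.re ≤ |v| - 1/5` up to `ε/50`: if `w'.re ≥ 0` then
`w'.re - w.re ≤ -|v| + .. = |v| - 2|v| + ..` and `2|v| ≥ 1/5`; if `w'.re < 0` then `|w'.re| - w.re ≤ |v| - 2 w.re + ..` and `2 w.re ≥ 3/8`. -/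
def S_ptL : Prop := ∀ (C₁ B : ℝ), 1 ≤ C₁ → 1 ≤ B → ∃ Y₀ : ℝ, 1 ≤ Y₀ ∧ ∀ (ε : ℝ) (D : ℕ)
  (N b Y x a : ℝ) (g : ℂ → ℂ), Ctx C₁ B Y₀ ε D N b Y x a g → ∀ w : ℂ, R1 b Y w → ∀ v : ℝ,
  -(Y / 2) ≤ v → v ≤ -(1 / 10) → ‖FF D x a g w v‖ ≤ ‖g (om x a w)‖ *
    Real.exp (N * ((1 + 2 * ε) * |v| - (1 - ε) * v ^ 2 / (2 * bet D N x a)) - N / 5 + 2 * ε * N)

/-- [JD ptF] (uses kr) Far part. Proof. `Y₀ = 2 C₁ B`, so `Y ≥ 200 C₁ B`. `w' = Wp x a v₀ v` (the identity `om v₀ * E = om w'` holds for all `v`,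
`field_simp`), `w'' = w'` or `-conj w'` with `w''.re ≥ 0`, `‖om w''‖ = ‖om v₀‖ ≥ x² - 2ax‖v₀‖ ≥ x²/2`. `glob`: `‖g (om w')‖ ≤
exp (C₁ N (‖w'' - w‖ + Y)) ‖g (om w)‖`, `‖w'' - w‖ ≤ ‖w'‖ + ‖w‖`, `w' - v₀ = (v₀ + ix/2a)(E - 1)`, `‖E - 1‖ ≤ 2a|v|/x` (real `v`), so
`‖w'‖ ≤ ‖v₀‖ + 1.01|v|`; `‖v₀‖, ‖w‖ ≤ 0.39 Y ≤ 0.78|v|`, `Y ≤ 2|v|`; `v₀.re - w.re ≥ -0.26 Y ≥ -0.52|v|`. Kernel: `exp (-N v²/(5β))`, `β ≤ B`, and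
`5.2 C₁|v| ≤ v²/(10β)` since `|v| ≥ Y/2`. -/
def S_ptF : Prop := ∀ (C₁ B : ℝ), 1 ≤ C₁ → 1 ≤ B → ∃ Y₀ : ℝ, 1 ≤ Y₀ ∧ ∀ (ε : ℝ) (D : ℕ)
  (N b Y x a : ℝ) (g : ℂ → ℂ), Ctx C₁ B Y₀ ε D N b Y x a g → ∀ w : ℂ, R1 b Y w → ∀ v₀ : ℂ,
  R0 b Y v₀ → ∀ v : ℝ, Y / 2 ≤ |v| → 2 * a * |v| ≤ Real.pi * x → ‖FF D x a g v₀ v‖ ≤
    ‖g (om x a w)‖ * Real.exp (N * (v₀.re - w.re) - N * v ^ 2 / (10 * bet D N x a))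

/-! ## 3. Transfer of the regularity -/

/-- [JD RTupp] (uses S_rep, S_cD, ptU, ptF) Proof. S_rep and `φ = -2av/x`: `Hd D g (om v₀) = cD (2a/x) ∫_{-πx/2a}^{πx/2a} FF D x a g v₀ v dv`.
`|v| ≤ Y/2`: ptU, `∫_ℝ exp (N ((1+2ε)|v| - (1-ε)v²/(2β))) dv ≤ 2 √(2πβ/(N(1-ε))) exp (Nβ(1+2ε)²/(2(1-ε)))`, `(1+2ε)²/(1-ε) ≤ 1 + 6ε`.
`|v| ≥ Y/2`: ptF, `√(10πβ/N)`. `cD (2a/x) √(β/N) = cD/√D ≤ C` (S_cD). (If `Y/2 > πx/2a` there is only the first part; in fact `Y/2` is smaller.) -/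
def S_RTupp : Prop := ∀ (C₁ B : ℝ), 1 ≤ C₁ → 1 ≤ B → ∃ C Y₀ : ℝ, 1 ≤ C ∧ 1 ≤ Y₀ ∧ ∀ (ε : ℝ) (D : ℕ)
  (N b Y x a : ℝ) (g : ℂ → ℂ), Ctx C₁ B Y₀ ε D N b Y x a g → ∀ w : ℂ, R1 b Y w → ∀ v₀ : ℂ,
  R0 b Y v₀ → ‖Hd D g (om x a v₀)‖ ≤ C * Real.exp (N * bet D N x a / 2 + N * (v₀.re - w.re) +
    C * ε * N * (‖v₀ - w‖ + 1)) * ‖g (om x a w)‖

/-- [JD RTlow] (uses S_KL, S_rep, S_cD, Fd, ptU, ptL, ptF) Proof. `Hd D g (om w) = cD (2a/x) ∫_{-πx/2a}^{πx/2a} FF D x a g w v dv`. On `[-1/10, β+1]`: S_KL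
with `ε → 2ε`, `v₁ = -1/10`, `L = β + 1` (Fd): `≥ √(β/N)/C e^{-CεN} ‖FF w β‖`, and `‖FF w β‖ ≥ e^{Nβ/2 - CεN} ‖g (om w)‖`: kernel at `β` by kr
(`κ` is `≤ εN`), and `lin` with the reference point `Wp x a w β` and the point `w`: `‖g (om w)‖ ≤ exp (N (w.re - w'.re) + εN‖w - w'‖) ‖g (om w')‖`,
`w'.re ≥ w.re + β - ε`. On `[β+1, Y/2]`: ptU with `v₀ = w`: exponent `≤ Nβ/2 + CεN - N(1-ε)(v-β')²/(2β)` with `v - β' ≥ 1/2`, so the integral is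
`≤ √(β/N) C e^{Nβ/2 + CεN - N/(32B)}`. On `[-Y/2, -1/10]`: ptL, factor `e^{-N/5}`. Outside: ptF. For `ε ≤ ε₀(B)`, `N ≥ N₀` the last three are at
most `1/4` of the first each. -/
def S_RTlow : Prop := ∀ (C₁ B : ℝ), 1 ≤ C₁ → 1 ≤ B → ∃ C Y₀ ε₀ N₀ : ℝ, 1 ≤ C ∧ 1 ≤ Y₀ ∧ 0 < ε₀ ∧
  1 ≤ N₀ ∧ ∀ (ε : ℝ) (D : ℕ) (N b Y x a : ℝ) (g : ℂ → ℂ), ε ≤ ε₀ → N₀ ≤ N →
  Ctx C₁ B Y₀ ε D N b Y x a g → ∀ w : ℂ, R1 b Y w →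
  Real.exp (N * bet D N x a / 2 - C * ε * N) / C * ‖g (om x a w)‖ ≤ ‖Hd D g (om x a w)‖

/-- [JD RTtail] (uses S_rep, S_cD, kr) Proof. As RTupp with `glob` for all `v`: `|v₀.im| ≤ 21b`, so `‖om v₀‖ ≥ x² - 42abx ≥ x²/2`;
`‖w'' - w‖ ≤ ‖v₀‖ + ‖w‖ + (‖v₀‖ + x/2a)(2a|v|/x)`, i.e. `‖g (om v₀ E)‖ ≤ exp (C₁N (‖v₀ - w‖ + 2‖w‖ + |v|(1 + s) + Y)) ‖g (om w)‖`, `s = 2a‖v₀‖/x`;
kernel `exp (-N v²/(5β))`; `C₁|v|(1+s) ≤ v²/(10β) + (5β/2) C₁²(1+s)²`. -/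
def S_RTtail : Prop := ∀ (C₁ B : ℝ), 1 ≤ C₁ → 1 ≤ B → ∃ C Y₀ : ℝ, 1 ≤ C ∧ 1 ≤ Y₀ ∧
  ∀ (ε : ℝ) (D : ℕ) (N b Y x a : ℝ) (g : ℂ → ℂ), Ctx C₁ B Y₀ ε D N b Y x a g → ∀ w : ℂ, R1 b Y w →
  ∀ v₀ : ℂ, 0 ≤ v₀.re → |v₀.im| ≤ 21 * b → ‖Hd D g (om x a v₀)‖ ≤
    C * Real.exp (C * N * (‖v₀ - w‖ + Y + (a * ‖v₀‖ / x) ^ 2)) * ‖g (om x a w)‖

/- [JD RT] `S_RT` (Defs) uses RTupp, RTlow, RTtail, S_up: theorem p_RT (h1 : S_RTupp) (h2 : S_RTlow) (h3 : S_RTtail) (h4 : S_up) : S_RT.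
Proof. `G w = Hd D g (om x a w) * cexp (-(N w))`. From RTlow at `w` and RTupp: for `w` in R1, `v` in R0: `G w ≠ 0` and `‖G v‖ ≤ C² exp (2CεN (‖v - w‖ + 1)) ‖G w‖
≤ exp (3CεN (‖v - w‖ + b)) ‖G w‖` for `N ≥ N₀(ε)`. S_up with `Y → Y/4`: the bound `lin` with `300 C ε`. `tail`: `‖v - w‖ ≥ Y/8`, RTtail / RTlow, factor
`exp (-N (v.re - w.re)) ≤ 1`; `εY ≥ Y₀` large: `C (‖v-w‖ + Y) ≤ ε‖v-w‖²` and `C (a‖v‖/x)² ≤ ε‖v-w‖²` (`a/x ≤ ε/(1000Y²)`, `‖v‖ ≤ ‖v-w‖ + Y`). `D ≥ 1` because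
`0 < N x² ≤ 4BDa²`. -/

/-! ## 4. The half integral -/

/-- kernel of the half integral, `ω = om x a w`, `r = x²`, `ψ = 2av/x` -/
noncomputable def Km (D : ℕ) (x a : ℝ) (w v : ℂ) : ℂ :=
  cexp (D * (cexp (-(2 * a * v / x * I)) / (1 - 2 * I * a * w / x) - 1)) *
    (1 - 2 * I * a * w / x) ^ D * cexp (D * (2 * a * v / x) * I)

/-- the integrand of `BJ` -/
noncomputable def FB (D : ℕ) (x a : ℝ) (g : ℂ → ℂ) (w v : ℂ) : ℂ :=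
  Km D x a w v * g (x ^ 2 * cexp (-(2 * a * v / x * I)))

/-- [JD BJk] The kernel of the half integral, `β = bet D N x a`. Proof. Put `δ = 2iaw/x`, `‖δ‖ ≤ 1/400`, `θ = -2iav/x - log (1 - δ)`. Then
`Km = exp (D (e^θ - 1 - θ))` (`e^θ = e^{-2iav/x}/(1-δ)`, `(1-δ)^D = exp (D log (1-δ))`). `‖log (1-δ) + δ‖ ≤ ‖δ‖²`, so `θ = -(2ia/x)(v - w) + e`,
`‖e‖ ≤ (2a/x)²‖w‖²`; `D (e^θ - 1 - θ) = D θ²/2 + O(D‖θ‖³/5)`, `D (2a/x)² = N/β`. (2) derivative: `-(2ia/x) D (e^θ - 1)`. (3) real `v`, `0 ≤ q = 2av/x ≤ π`: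
`log ‖Km‖ = D (Re (e^{-iq}/(1-δ)) - 1 + log ‖1-δ‖) ≤ D (cos q - 1) + D‖δ‖q + 3D‖δ‖²` (`1/(1-δ) = 1 + δ + O(1.01‖δ‖²)`, `log‖1-δ‖ = -Re δ + O(‖δ‖²)`,
`Re (δ(e^{-iq} - 1)) ≤ ‖δ‖q`), and `D‖δ‖q = (N/β)‖w‖v`, `D‖δ‖² = (N/β)‖w‖²`. -/
def S_BJk : Prop := ∀ (D : ℕ) (N x a : ℝ) (w : ℂ), 1 ≤ D → 0 < N → 0 < a → 800 * a ≤ x →
  ‖w‖ ≤ 1 →
  (∀ v : ℂ, 8 * a * (‖v‖ + 1) ≤ x → (∃ κ : ℂ,
      ‖κ‖ ≤ 4 * (N / bet D N x a) * (a / x) * (‖v‖ + 1) ^ 3 ∧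
      Km D x a w v = cexp (-(N * (v - w) ^ 2 / (2 * bet D N x a)) + κ)) ∧
    ∃ κ' : ℂ, ‖κ'‖ ≤ 4 * (N / bet D N x a) * (a / x) * (‖v‖ + 1) ^ 2 ∧
      HasDerivAt (Km D x a w) (Km D x a w v * (-(N * (v - w) / bet D N x a) + κ')) v) ∧
  (∀ v : ℝ, 0 ≤ v → 2 * a * v ≤ Real.pi * x →
    ‖Km D x a w v‖ ≤ Real.exp (N / bet D N x a * (v + 3) - N * v ^ 2 / (5 * bet D N x a)))

/-- the hypotheses of `S_BJ` -/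
structure CtxB (C₁ Y₀ ε : ℝ) (D : ℕ) (N Y x a : ℝ) (g : ℂ → ℂ) : Prop where
  ctx : Ctx C₁ 4 Y₀ ε D N 1 Y x a g
  b1 : 4 * D * a ^ 2 ≤ N * x ^ 2

/-- [JD BJp] (uses BJk, wp, ld) Pointwise bounds, `1 ≤ β ≤ 4`. Proof. `x² e^{-2iav/x} = om x a (Wp x a 0 v)`, `w' = Wp x a 0 v`, `‖w' - v‖ ≤ 4a‖v‖²/x ≤ ε/100`
(wp); for `0 ≤ v.re` with `w'.re < 0` use `-conj w'` as in ptU (then `|w'.re| ≤ ε/100`). (1) `lin` with the reference point `β` (`1/16 ≤ β`) and BJk (1),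
`κ ≤ 4(N/β)(a/x)(‖v‖+1)³ ≤ εN(‖v‖+1)`. (2) as Fd. (3) `glob` with the reference point `β`: `‖g (om w')‖ ≤ exp (C₁N(‖w''‖ + β + Y)) ‖g (om β)‖`, `‖w''‖ ≤ 1.01 v`,
`Y ≤ 2v`, BJk (3). (4) `lin` both ways between `w + β` and `β`, and BJk (1) at `v = w + β` (here the exponent is `-Nβ/2`), with `Wp x a 0 (w+β)` close to `w + β`. -/
def S_BJp : Prop := ∀ C₁ : ℝ, 1 ≤ C₁ → ∃ C Y₀ : ℝ, 1 ≤ C ∧ 1 ≤ Y₀ ∧ ∀ (ε : ℝ) (D : ℕ)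
  (N Y x a : ℝ) (g : ℂ → ℂ), CtxB C₁ Y₀ ε D N Y x a g → ∀ w : ℂ, ‖w‖ ≤ 5 / 8 →
  (∀ v : ℂ, 0 ≤ v.re → v.re ≤ Y / 2 → |v.im| ≤ 1 → ‖FB D x a g w v‖ ≤
    ‖g (om x a (bet D N x a : ℝ))‖ * Real.exp (N * (v.re - bet D N x a) -
      N * ((v - w) ^ 2).re / (2 * bet D N x a) + C * ε * N * (‖v‖ + 1))) ∧
  (∀ v : ℂ, 1 / 10 ≤ v.re → v.re ≤ 10 → |v.im| ≤ 1 →
    DifferentiableAt ℂ (FB D x a g w) v ∧ FB D x a g w v ≠ 0 ∧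
    ‖deriv (FB D x a g w) v / FB D x a g w v - N * (1 - (v - w) / bet D N x a)‖ ≤ C * ε * N) ∧
  (∀ v : ℝ, Y / 2 ≤ v → 2 * a * v ≤ Real.pi * x → ‖FB D x a g w v‖ ≤
    ‖g (om x a (bet D N x a : ℝ))‖ * Real.exp (-(N * v ^ 2 / (10 * bet D N x a)))) ∧
  |Real.log ‖FB D x a g w (w + (bet D N x a : ℝ))‖ -
    (Real.log ‖g (om x a (bet D N x a : ℝ))‖ + N * w.re - N * bet D N x a / 2)| ≤ C * ε * N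

/- [JD BJ] `S_BJ` (Defs) uses S_KL, S_cD, BJp: theorem p_BJ (h1 : S_KL) (h2 : S_cD) (h3 : S_BJp) : S_BJ. Proof. `Z = πx/2a`, `BJ D g (x²) (om x a w) =
cD (2a/x) ∫_0^Z FB w v dv` (`ψ = 2av/x`, `om x a w/x² = 1 - 2iaw/x`). `y = w.im`, `M = w.re + β + 1`. FB is entire in `v`, so by Cauchy (rectangle)
`∫_0^Z = ∫_{0}^{iy} + ∫_{iy}^{iy+M} + ∫_{iy+M}^{M} + ∫_M^Z`. Main part: `v = w + v'`, `v'` real from `1/10 - w.re` to `L = β + 1`: S_KL with `B = 4`, `F v' = FB w (w + v')`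
(BJp (2); `v₁ = 1/10 - w.re ≤ 0.725 ≤ β - 1/16`): between `√(β/N)/C e^{-CεN}` and `C√(β/N) e^{CεN}` times `‖FB w (w+β)‖`, which is BJp (4). All other parts are at most
`exp (-N/100)` times that (exponents relative to the saddle value `N w.re - Nβ/2`; BJp (1)): with `v = w + A + iB'` the exponent is `-(N/2β)((A-β)² - B'²)`; on the
segment from `0` to `iy`: `A = -w.re`, `|B'| ≤ |w.im|`, `(β + w.re)² - w.im² ≥ 1/10` for `‖w‖ ≤ 5/8`, `1 ≤ β ≤ 4` (minimum at `β = 1`, `w.re = -1/2`: `1/2 - 25/64`);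
on `[iy, iy + 1/10]`: `B' = 0`, `β - A ≥ 0.27`; on the right vertical segment `A - β = 1`, `|B'| ≤ 5/8`; on `[M, Y/2]`: `v = w + A - iy`, `A ≥ β + 1`, Gaussian decay;
on `[Y/2, Z]`: BJp (3). `c = log (cD (2a/x) √(β/N)) + log ‖g (om β)‖ - Nβ/2`; constants are absorbed by `N ≥ N₀(ε)`. -/

/- [JD NI] `S_NI` (Defs) uses S_RT, S_PD, S_ZD, S_PDs of DN: theorem p_NI (h1 : S_RT) (h2 : S_PD) (h3 : S_ZD) (h4 : S_PDs) : S_NI. Proof. `N = n`, `R w = Hd D g (om x a w) *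
cexp (-(n w))`, `la n R w = Hd D g (om x a w)`; S_RT: `Reg (Cε) n b (Y/4) R`; `Sym (la n R)` with `c = 1`: `Hd D g` is real (`g` real: the derivatives at `0` are real,
`iteratedDeriv_conj'`), `om x a (-conj w) = conj (om x a w)`. `iteratedDeriv n (fun w => Hd D g (om x a w)) w = (-2iax)^n iteratedDeriv n (Hd D g) (om x a w)`
(`Hd D g` is a polynomial function, entire; `om` affine; `om x a w = x² + (-2iax) w`; `iteratedDeriv_comp_const_mul`-type lemmas or induction). `Y/10 ≤ (Y/4)/2 - 2`. -/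

/- [JD NII] `S_NII` (Defs) uses S_RT, S_BJ, S_DB, S_HB, S_HB4, S_repB: theorem p_NII (h1 : S_RT) (h2 : S_BJ) (h3 : S_DB) (h4 : S_HB) (h5 : S_HB4) (h6 : S_repB) : S_NII.
Proof. `la w = Hd D g (om x a w)`, `β ∈ [1, 4]`. (a) off the axis: S_RT with `B = 4`: `Reg ε' N b (Y/4)`, `ε' = Cε`. For `y ≥ b` (`b ≥ 2`), `r = 1`, resp. `b = 1`,
`y ≥ 5/16`, `r = 1/16`: on the ball of radius `r` around `y` we are in the region `Re ≥ b/4` and `|log ‖la (y + rw)‖ - log ‖la y‖ - N r w.re| ≤ ε' N r`; S_DB for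
`w ↦ la (y + r w)` with `rN` instead of `N` (`n ≤ η₀ r N` by `B n ≤ N`): `iteratedDeriv n` is nonzero at `y`; chain rule as in NI. (b) near the axis, `b = 1`:
`B̂ w = BJ D g (x²) (om x a w)`, log-linear on `‖w‖ < 5/8` (S_BJ); S_DB for `w ↦ B̂ (5w/8)`: `B̂ₙ = iteratedDeriv n B̂` is nonzero and log-linear with error `≤ 3CεN` on
`‖w‖ < 5/16`. `la w = B̂ w + conj (B̂ (-conj w))` (S_repB), so `iteratedDeriv n la w = B̂ₙ w + (-1)^n conj (B̂ₙ (-conj w))`; for `0 < y < 5/16`: `‖B̂ₙ (-y)‖ < ‖B̂ₙ y‖`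
(S_HB with `ρ = 5/16` for `y ≤ 5/32`; log-linearity for `y ≥ 5/32`), so the sum is not zero. Simple at `0`: as in `DN/P/PHs` or `PDs` from S_HB4. (c) the value at
`2b` is nonzero by (a) (`r = 1`, `Re ≥ b/4`), with `‖iteratedDeriv n la (2b)‖ ≥ N^n e^{-CNb} ‖la (2b)‖`; growth: Cauchy's estimate with radius `1` and `Reg.lin` (and the
reflection `‖la w‖ = ‖la (-conj w)‖` for `Re w < 0`): `‖iteratedDeriv n la w‖ ≤ n! e^{CNb} ‖la (2b)‖`, `n! ≤ N^n`. -/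

/-! ## 5. The L-function -/

/-- [JD LLf] `LL` far to the right. Proof. `LL w = Lf (6 + w)`, `‖Lf s - 1‖ ≤ C 2^{-Re s}` (Lf_sub_one), so `‖LL w - 1‖ ≤ δ` and (Cauchy, radius 1)
`‖deriv LL w‖ ≤ 2δ` for `w.re ≥ V₀(δ)`; mean value inequality on the half-plane: `‖LL v‖ ≤ ‖LL w‖ + 2δ‖v - w‖ ≤ (1 + 4δ‖v-w‖)‖LL w‖`. -/
def S_LLf : Prop := ∀ ε : ℝ, 0 < ε → ∃ V₀ : ℝ, 1 ≤ V₀ ∧ ∀ w v : ℂ, V₀ ≤ w.re → V₀ ≤ v.re →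
  1 / 2 ≤ ‖LL w‖ ∧ ‖LL w‖ ≤ 2 ∧ ‖LL v‖ ≤ Real.exp (ε * ‖v - w‖) * ‖LL w‖

/- [JD reg2w] `S_reg2w` (Defs): adapt `DN/P/reg1.lean` and `DN/P/reg2.lean`: theorem p_reg2w : S_reg2w. In reg1 take the radius `b/24` (`w.re ≥ b/6`, so
`w.re - b/24 ≥ b/8`) and `‖v - w‖ ≤ b/48`: constant `96`; in reg2 pick `j` with `2^j a/6 ≤ w.re` and (`w.re < 2^j a/3` or `j = J`), threshold `‖v - w‖ ≤ 2^j a/48`. -/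

/-- [JD LLw] (uses S_reg2w, LLf) Proof. `H = 200 2^J a ∈ [200V, 400V]`, `V ≥ V₀` (LLf with `ε = 1`). Both `w.re, v.re ≤ H`: S_reg2w. Both `≥ 100V`: LLf,
`1 ≤ ε l`. `w.re > H`, `v.re < 100V`: put `w₁ = 150V + i w.im`; S_reg2w for `v, w₁` (`‖v - w₁‖ ≤ ‖v - w‖`), `‖LL w₁‖ ≤ 2 ≤ 4‖LL w‖` and `4 ≤ exp (100 ε l ‖v - w‖)` since
`‖v - w‖ ≥ 100V ≥ 100`, `l ≥ l₀`. `v.re > H`, `w.re < 100V`: `v₁ = 150V + i v.im`, `‖LL v‖ ≤ 4‖LL v₁‖`. -/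
def S_LLw : Prop := ∃ V₀ : ℝ, 1 ≤ V₀ ∧ ∀ ε V : ℝ, 0 < ε → V₀ ≤ V → ∃ l₀ : ℝ, 1 ≤ l₀ ∧
  ∀ (l a x : ℝ) (i J : ℕ), l₀ ≤ l → 0 < a → i ≤ J → V ≤ 2 ^ J * a → 2 ^ J * a ≤ 2 * V →
  (∀ j : ℕ, i ≤ j → j ≤ J → DN.Good ε x (2 ^ j * a) l) → ∀ w v : ℂ,
  2 ^ i * a / 6 ≤ w.re → w.re ≤ 2100 * V → |w.im - x| ≤ 97 * (2 ^ i * a) →
  0 ≤ v.re → v.re ≤ 2100 * V → |v.im - x| ≤ 97 * (2 ^ i * a) →
  LL w ≠ 0 ∧ ‖LL v‖ ≤ Real.exp (200 * ε * l * ‖v - w‖) * ‖LL w‖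

/-- [JD LLT] (uses LLf) Large scales. Proof. `l ≥ log x - 1 ≥ log A - 1` is large. `v.re ≥ a/40`: LLf with `ε` (`a/40 ≥ V₀`), `1 ≤ l`. `v.re < a/40`: `‖v - w‖ ≥ a/40`, and
`‖LL v‖ ≤ C (9 + |v.im|)^4 ≤ C (9 + 2x)^4` (Lf_bound) `≤ exp (5l + C') ≤ exp (ε l a/40)/2`, `‖LL w‖ ≥ 1/2`. -/
def S_LLT : Prop := ∀ ε : ℝ, 0 < ε → ∃ A : ℝ, 1 ≤ A ∧ ∀ a x l : ℝ, A ≤ a → A * a ^ 2 ≤ x →
  |Real.log x - l| ≤ 1 → ∀ w v : ℂ, a / 20 ≤ w.re → |w.im - x| ≤ x / 2 → 0 ≤ v.re →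
  |v.im - x| ≤ x / 2 → LL w ≠ 0 ∧ ‖LL v‖ ≤ Real.exp (ε * l * ‖v - w‖) * ‖LL w‖

/-! ## 6. Square roots -/

/-- [JD sg] The branch `s = i√ω`, with values in the closed first quadrant for `Im ω ≤ 0`. Proof. `sg ω = I * conj ((conj ω)^(1/2))`, i.e. take for each `ω` with `Im ω ≤ 0` a
square root `S` of `-ω`; `-ω` has `Im ≥ 0`; choose the sign with `S.re ≥ 0`, or `S.re = 0` and `S.im ≥ 0`; then `2 S.re S.im = Im (-ω) ≥ 0` gives `S.im ≥ 0`. For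
`Im ω > 0` any root. `ff ω = Lam (6 + S)`: `ω = (-I S)²`, ff_sq. Distance: `(S - S')(S + S') = ω' - ω` and
`‖S + S'‖² ≥ ‖S‖² + ‖S'‖² = ‖ω‖ + ‖ω'‖` (both in the first quadrant). -/
def S_sg : Prop := ∃ sg : ℂ → ℂ, (∀ ω, sg ω ^ 2 = -ω) ∧ (∀ ω, ff ω = Lam (6 + sg ω)) ∧
  (∀ ω, ω.im ≤ 0 → 0 ≤ (sg ω).re ∧ 0 ≤ (sg ω).im) ∧
  ∀ ω ω', ω.im ≤ 0 → ω'.im ≤ 0 → ‖sg ω - sg ω'‖ * Real.sqrt (‖ω‖ + ‖ω'‖) ≤ ‖ω - ω'‖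

/-- [JD rt2] Proof. `z'² = ω` with `Re (z' conj z) ≥ 0`, so `‖z' + z‖ ≥ ‖z‖`, `‖z' - z‖ ≤ ‖ω - z²‖/‖z‖ ≤ ‖z‖/4`, then `‖z' + z‖ ≥ 2‖z‖ - ‖z‖/4`, so
`‖z' - z‖ ≤ (4/7)‖ω - z²‖/‖z‖`. `z' - z - (ω - z²)/(2z) = -(ω - z²)(z' - z)/(2z(z' + z))`. -/
def S_rt2 : Prop := ∀ z ω : ℂ, z ≠ 0 → ‖ω - z ^ 2‖ ≤ ‖z‖ ^ 2 / 4 → ∃ z' : ℂ, z' ^ 2 = ω ∧
  ‖z' - z‖ ≤ 4 / 7 * (‖ω - z ^ 2‖ / ‖z‖) ∧
  ‖z' - z - (ω - z ^ 2) / (2 * z)‖ ≤ ‖ω - z ^ 2‖ ^ 2 / (4 * ‖z‖ ^ 3)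

/-! ## 7. Regularity of `ff` near the axis -/

/-- a Lipschitz bound of `log LL` near `ix`; `τ` left edge, `h` width, `H` right edge -/
def LReg (ε l τ h H x : ℝ) : Prop := ∀ w v : ℂ, τ ≤ w.re → w.re ≤ H → |w.im - x| ≤ h →
  0 ≤ v.re → v.re ≤ H → |v.im - x| ≤ h →
  LL w ≠ 0 ∧ ‖LL v‖ ≤ Real.exp (ε * l * ‖v - w‖) * ‖LL w‖

/-- the hypotheses of the next pieces -/
structure CtxL (ε l₀ l x a b Y : ℝ) : Prop where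
  e0 : 0 < ε
  l0 : l₀ ≤ l
  l1 : 1 ≤ l
  x0 : 0 < x
  lx : |Real.log x - l| ≤ 1
  a0 : 0 < a
  b1 : 1 ≤ b
  bY : b ≤ Y
  al : 1 ≤ a * l
  h1 : l₀ * (1 + a * Y) ^ 2 ≤ x
  h2 : l₀ * a * Y ^ 2 ≤ x * b
  lr : LReg (ε / 4) l (a * b / 20) (97 / 4 * (a * b)) (21 / 20 * (a * Y)) x

/-- [JD sgn] (uses sg) The points `s = sg (om x a w)`. Here `l₀ ≥ 10^9`. Proof. `Im (om x a w) = -2ax w.re ≤ 0`. `s² = -(om x a w) = (ix + aw)² - a²w²`, `s` in the first quadrant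
and `|s.im| + ..`: `‖s‖² = ‖om‖ ≥ x²/2`; `(s - (ix + aw))(s + ix + aw) = -a²w²` and `Im (s + ix + aw) ≥ x + a w.im ≥ x/2`, so `‖s - (ix + aw)‖ ≤ 2a²‖w‖²/x`.
Region: `‖w‖² ≤ w.re² + 576b²`, `w.re ≥ b/16`: `2a²‖w‖²/x ≤ a w.re · (2a(w.re + 9216 b)/x)`, small compared with `a w.re`; imaginary part: `2a²‖w‖²/x ≤ 1200 a²Y²/x ≤
1200 ab/l₀ ≤ ab/4` (h2). For the difference: `(s_v - s_w)(s_v + s_w) = 2iax (v - w)`, `s_v + s_w = 2ix + a(v + w) + O(..)`. -/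
def S_sgn : Prop := ∀ sg : ℂ → ℂ, (∀ ω, sg ω ^ 2 = -ω) →
  (∀ ω, ω.im ≤ 0 → 0 ≤ (sg ω).re ∧ 0 ≤ (sg ω).im) →
  ∀ ε l x a b Y : ℝ, CtxL ε (10 ^ 9) l x a b Y →
  (∀ w : ℂ, b / 16 ≤ w.re → w.re ≤ Y → |w.im| ≤ 24 * b →
    a * b / 20 ≤ (sg (om x a w)).re) ∧
  (∀ w : ℂ, 0 ≤ w.re → w.re ≤ Y → |w.im| ≤ 24 * b → (sg (om x a w)).re ≤ 21 / 20 * (a * Y) ∧
    |(sg (om x a w)).im - x| ≤ 97 / 4 * (a * b) ∧ x / 2 ≤ ‖sg (om x a w)‖ ∧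
    ‖sg (om x a w)‖ ≤ 2 * x) ∧
  (∀ w v : ℂ, 0 ≤ w.re → w.re ≤ Y → |w.im| ≤ 24 * b → 0 ≤ v.re → v.re ≤ Y → |v.im| ≤ 24 * b →
    ‖sg (om x a v) - sg (om x a w) - a * (v - w)‖ ≤ 200 * a * ‖v - w‖ * (a * Y / x)) ∧
  (∀ w v : ℂ, 0 ≤ w.re → w.re ≤ Y → |w.im| ≤ 24 * b → 0 ≤ v.re →
    ‖sg (om x a v) - sg (om x a w)‖ ≤ 3 * a * ‖v - w‖ ∧
    ‖sg (om x a v) - sg (om x a w)‖ ^ 2 ≤ 40 * (x * a * ‖v - w‖))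

/-- [JD nrl] (uses sg, sgn) Nonvanishing and `lin`. Proof. `s = sg (om w)`, `t = sg (om v) - s`, `ff (om w) = Lam (6 + s) = G0 (6+s) LL s`, and Lam_quot (`6 + s`, `t`):
`ff (om v) = G0 (6+s) exp (rc (6+s) t + g) LL (s + t)`, `‖g‖ ≤ 4(‖t‖ + 30‖t‖²)/‖6+s‖`. `‖rc (6+s) - l‖ ≤ 8` (as `dn_reg_rc` in `DN/P/reg.lean`: `|log ‖6+s‖ - log x| ≤ 1`).
`t = a(v-w) + e`, `‖e‖ ≤ 200a‖v-w‖ aY/x`. So `Re (rc t + g) ≤ l a (v.re - w.re) + l‖e‖ + 8‖t‖ + ‖g‖ ≤ al(v.re - w.re) + (ε/2) al‖v-w‖` for `l ≥ l₀(ε)`,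
`x ≥ l₀ (1+aY)²`; LReg: `‖LL (s+t)‖ ≤ exp ((ε/4) l ‖t‖)‖LL s‖`. -/
def S_nrl : Prop := ∀ ε : ℝ, 0 < ε → ∃ l₀ : ℝ, 10 ^ 9 ≤ l₀ ∧ ∀ l x a b Y : ℝ,
  CtxL ε l₀ l x a b Y →
  (∀ w : ℂ, b / 16 ≤ w.re → w.re ≤ Y → |w.im| ≤ 24 * b → ff (om x a w) ≠ 0) ∧
  (∀ w v : ℂ, b / 16 ≤ w.re → w.re ≤ Y → |w.im| ≤ 24 * b → 0 ≤ v.re → v.re ≤ Y →
    |v.im| ≤ 24 * b →
    ‖ff (om x a v)‖ ≤ Real.exp (a * l * (v.re - w.re) + ε * (a * l) * ‖v - w‖) *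
      ‖ff (om x a w)‖)

/-- [JD nrg] (uses sg, sgn, LLf) The bound `glob`. Proof. As nrl; Lam_quot needs `‖6+s‖ ≤ 4‖6+s+t‖`, true since `‖s‖ ≤ 2x`... more precisely `‖s‖ ≤ 1.1 x` and `‖s+t‖ = √‖om v‖ ≥ x/√2`.
`‖t‖ ≤ 3a‖v-w‖`, `‖t‖²/x ≤ 40a‖v-w‖`, `‖rc‖ ≤ l + 8`. `‖LL (s+t)‖ ≤ C (15 + ‖s+t‖)^4 ≤ exp (C (l + a‖v-w‖))` (Lf_bound). `‖LL s‖ ≥ exp (-C l aY)`: LReg with `v = aY + i s.im`,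
where `‖LL v‖ ≥ 1/2` (LLf with `ε = 1`, `aY ≥ H₀`). -/
def S_nrg : Prop := ∃ C₁ H₀ l₀ : ℝ, 1 ≤ C₁ ∧ 1 ≤ H₀ ∧ 10 ^ 9 ≤ l₀ ∧ ∀ ε l x a b Y : ℝ, ε ≤ 1 →
  H₀ ≤ a * Y → CtxL ε l₀ l x a b Y →
  ∀ w v : ℂ, b / 16 ≤ w.re → w.re ≤ Y → |w.im| ≤ 24 * b → 0 ≤ v.re →
    x ^ 2 / 2 ≤ ‖om x a v‖ →
    ‖ff (om x a v)‖ ≤ Real.exp (C₁ * (a * l) * (‖v - w‖ + Y)) * ‖ff (om x a w)‖

/- [JD nrG] `S_nrG` (Defs) uses nrl, nrg, LLw: theorem p_nrG (h1 : S_nrl) (h2 : S_nrg) (h3 : S_LLw) : S_nrG. Proof. `ε' = min ε 1`; `a' = a/4`, `b = 2^i`, `Y = 2000V/a`, `aY = 2000V`;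
Good (ε'/800) at `2^j a'`; LLw gives LReg (ε'/4) l (2^i a'/6) (97 2^i a') (2100V) x, and `2^i a/24 ≤ ab/20`, `97/4 ab`, `21/20 · 2000V = 2100V`. `x ≥ e^{l-1}` is larger than
`l₀(1 + 2000V)²` and than `l₀ a Y² = l₀ (2000V)²/a ≤ l₀ (2000V)² l`. (`Good` is monotone in `ε`; so state with `min`.) -/

/- [JD nrT] `S_nrT` (Defs) uses nrl, nrg, LLT: theorem p_nrT (h1 : S_nrl) (h2 : S_nrg) (h3 : S_LLT) : S_nrT. Proof. `b = 1`; `A ≥ l₀ (1+Y)²·4`, ..; `x ≥ A a²`. -/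

/-! ## 8. Regularity of `ff` far from the axis -/

/- [JD FR] `S_FR` (Defs) uses rt2, sg, LLf: theorem p_FR (h1 : S_rt2) (h2 : S_sg) (h3 : S_LLf) : S_FR. Proof. `FarReg C₁ ff z` depends only on `z²`, `‖z‖`, `|z.im|`; replacing `z` by `-z` let
`z.im < 0`; `s = Iz`, `s.re = |z.im| ≥ V`. `ne`: rt2 (`‖ω - z²‖ ≤ ‖z‖|z.im|/4 ≤ ‖z‖²/4`): `z'² = ω`, `‖z' - z‖ ≤ |z.im|/7`, so `(Iz').re ≥ 6V/7` and `ff ω = Lam (6 + Iz') ≠ 0`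
(Lam_ne_zero) and Lam_quot (`6 + s`, `t = I(z' - z)`): ratio `≤ exp ((log ‖z‖ + 10)‖t‖ + ..) · 4`. `glob`: replacing `z` by `-conj z` if necessary (`ff` is real) let also `z.re ≥ 0`, so
`Im z² ≤ 0` and `s = sg (z²)`, up to sign, in fact `s` and `sg (z²)` are both in the first quadrant with the same square, so equal; if `Im ω > 0` replace `ω` by `conj ω` (same `‖ff‖`, smaller
distance to `z²`). `t = sg ω - s`, `‖t‖ ≤ ‖ω - z²‖/‖z‖`, `‖t‖ ≤ 3‖z‖`; Lam_quot; Lf_bound for `LL (s+t)`, `‖LL s‖ ≥ 1/2`. -/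

/- [JD FRl] `S_FRl` (Defs) uses rt2, LLf: theorem p_FRl (h1 : S_rt2) (h2 : S_LLf) : S_FRl. Proof. As FR (`z.im < 0`), `lam = rc (6+s) · I ‖z‖/(2z)`, `‖lam‖ = ‖rc (6+s)‖/2`, `rc s = log s - log 2π`.
`ff ω = G0 (6+s) exp (rc (6+s) t + g) LL (s+t)`, `t = I(z' - z)`, `‖t - I(ω - z²)/(2z)‖ ≤ ‖ω - z²‖²/(4‖z‖³) ≤ κ²|z.im|²/(4‖z‖) ≤ κ²|z.im|/4`, times `‖rc‖ ≤ 1.1 log ‖z‖`: at most
`0.3 κ²|z.im| log ‖z‖`. `‖g‖ ≤ C‖t‖ ≤ C|z.im|` (since `‖t‖ ≤ ‖s‖`), small compared with `κ²|z.im| log ‖z‖` for `‖z‖ ≥ T₀`; `LL`: between `1/2` and `2`. -/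

/- [JD FZ] `S_FZ` (Defs) uses S_FJ, S_DB, S_FR, S_FRl: theorem p_FZ (h1 : S_FJ) (h2 : S_DB) (h3 : S_FR) (h4 : S_FRl) : S_FZ. Proof. `κ = η₀/16` (`η₀` of S_DB), `y = |z.im|`. For `ω₀` with
`‖ω₀ - z²‖ ≤ κ‖z‖y`, `ω₀ = z'²` (rt2, may be used too) with `‖z'‖ ∈ [‖z‖/2, 2‖z‖]`, `|z'.im| ≥ y/2`: S_FR gives FarReg C₁ ff z'; S_FJ with `δ = |z'.im|/(8‖z'‖)`, `M = 8C₁·|z'.im| log ‖z'‖`:
`2δ‖ω₀‖ = ‖z'‖|z'.im|/4`; `M ≤ c₀Dδ²` because `y ≥ V‖z‖² log ‖z‖/D`; result `|log ‖Hd‖ - log ‖ff‖| ≤ C (log² ‖z‖ ‖z‖²/D + 1) ≤ C' y log ‖z‖/V + C`. With S_FRl: `w ↦ Hd D ff (z² + κ‖z‖y u w)`,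
`u = ‖lam‖/lam`, is log-linear on the unit ball with `N = ‖lam‖κy ≥ κ y log ‖z‖/4` and error `(κ² + C'/V) y log ‖z‖ + C ≤ η₀ N`. `n ≤ A log ‖z‖ ≤ η₀ N` for `y ≥ V`. S_DB at `w = 0`. -/

end Pool.Agent.Lib.MP_cd509c_nt.JD
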