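import Pool.Agent.Lib.MP_cd509c_nt.DN.Main4
import Pool.Agent.Lib.MP_cd509c_nt.JD.StmS
import Pool.Agent.Lib.MP_cd509c_nt.JD.StmK
import Pool.Agent.Lib.MP_cd509c_nt.JD.P.rep
import Pool.Agent.Lib.MP_cd509c_nt.JD.P.repB
import Pool.Agent.Lib.MP_cd509c_nt.JD.P.cD
import Pool.Agent.Lib.MP_cd509c_nt.JD.P.up
import Pool.Agent.Lib.MP_cd509c_nt.JD.P.DB
import Pool.Agent.Lib.MP_cd509c_nt.JD.P.FJ
import Pool.Agent.Lib.MP_cd509c_nt.JD.P.gr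
import Pool.Agent.Lib.MP_cd509c_nt.JD.P.alg
import Pool.Agent.Lib.MP_cd509c_nt.JD.P.pair
import Pool.Agent.Lib.MP_cd509c_nt.JD.P.PH
import Pool.Agent.Lib.MP_cd509c_nt.JD.P.fam
import Pool.Agent.Lib.MP_cd509c_nt.JD.P.cntM
import Pool.Agent.Lib.MP_cd509c_nt.JD.P.nrF
import Pool.Agent.Lib.MP_cd509c_nt.JD.P.FRF
import Pool.Agent.Lib.MP_cd509c_nt.JD.P.ann
import Pool.Agent.Lib.MP_cd509c_nt.JD.P.out0
import Pool.Agent.Lib.MP_cd509c_nt.JD.P.out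
import Pool.Agent.Lib.MP_cd509c_nt.JD.P.link
import Pool.Agent.Lib.MP_cd509c_nt.JD.P.fin
import Pool.Agent.Lib.MP_cd509c_nt.JD.P.dbl
import Pool.Agent.Lib.MP_cd509c_nt.JD.P.sim
import Pool.Agent.Lib.MP_cd509c_nt.JD.P.outs
import Pool.Agent.Lib.MP_cd509c_nt.JD.P.J
import Pool.Agent.Lib.MP_cd509c_nt.JD.P.asmW
import Pool.Agent.Lib.MP_cd509c_nt.JD.P.blkI
import Pool.Agent.Lib.MP_cd509c_nt.JD.P.blkII
import Pool.Agent.Lib.MP_cd509c_nt.JD.P.low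
import Pool.Agent.Lib.MP_cd509c_nt.JD.P.KL
import Pool.Agent.Lib.MP_cd509c_nt.JD.P.BJ
import Pool.Agent.Lib.MP_cd509c_nt.JD.P.NII
import Pool.Agent.Lib.MP_cd509c_nt.JD.P.FZ
import Pool.Agent.Lib.MP_cd509c_nt.JD.P.wp
import Pool.Agent.Lib.MP_cd509c_nt.JD.P.kr
import Pool.Agent.Lib.MP_cd509c_nt.JD.P.ld
import Pool.Agent.Lib.MP_cd509c_nt.JD.P.Fd
import Pool.Agent.Lib.MP_cd509c_nt.JD.P.ptU
import Pool.Agent.Lib.MP_cd509c_nt.JD.P.ptL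
import Pool.Agent.Lib.MP_cd509c_nt.JD.P.ptF
import Pool.Agent.Lib.MP_cd509c_nt.JD.P.RTupp
import Pool.Agent.Lib.MP_cd509c_nt.JD.P.RTlow
import Pool.Agent.Lib.MP_cd509c_nt.JD.P.RTtail
import Pool.Agent.Lib.MP_cd509c_nt.JD.P.RT
import Pool.Agent.Lib.MP_cd509c_nt.JD.P.NI
import Pool.Agent.Lib.MP_cd509c_nt.JD.P.LLf
import Pool.Agent.Lib.MP_cd509c_nt.JD.P.reg2w
import Pool.Agent.Lib.MP_cd509c_nt.JD.P.LLw
import Pool.Agent.Lib.MP_cd509c_nt.JD.P.LLT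
import Pool.Agent.Lib.MP_cd509c_nt.JD.P.sg
import Pool.Agent.Lib.MP_cd509c_nt.JD.P.rt2
import Pool.Agent.Lib.MP_cd509c_nt.JD.P.sgn
import Pool.Agent.Lib.MP_cd509c_nt.JD.P.nrl
import Pool.Agent.Lib.MP_cd509c_nt.JD.P.nrg
import Pool.Agent.Lib.MP_cd509c_nt.JD.P.nrG
import Pool.Agent.Lib.MP_cd509c_nt.JD.P.nrT
import Pool.Agent.Lib.MP_cd509c_nt.JD.P.FR
import Pool.Agent.Lib.MP_cd509c_nt.JD.P.FRl

/-!
# Project JD: assembly
-/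

set_option autoImplicit false

namespace Pool.Agent.Lib.MP_cd509c_nt.JD

open Pool.Agent.Lib.MP_cd509c_nt.DN

theorem m_KL : S_KL := p_KL p_lapH

theorem m_DB : S_DB := p_DB p_lapD

theorem m_FJ : S_FJ := p_FJ p_lapH p_rep p_cD

theorem m_ptU : S_ptU := p_ptU p_wp p_kr

theorem m_ptL : S_ptL := p_ptL p_wp p_kr

theorem m_ptF : S_ptF := p_ptF p_kr

theorem m_Fd : S_Fd := p_Fd p_wp p_kr p_ld

theorem m_RTupp : S_RTupp := p_RTupp p_rep p_cD m_ptU m_ptF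

theorem m_RTlow : S_RTlow := p_RTlow m_KL p_rep p_cD m_Fd m_ptU m_ptL m_ptF p_wp p_kr

theorem m_RTtail : S_RTtail := p_RTtail p_rep p_cD p_kr

theorem m_RT : S_RT := p_RT m_RTupp m_RTlow m_RTtail p_up

theorem m_BJ : S_BJ := p_BJ m_KL p_cD

theorem m_NI : S_NI := p_NI m_RT m_PD m_ZD m_PDs

theorem m_NII : S_NII := p_NII m_RT m_BJ p_repB m_DB p_HB p_HB4

theorem m_LLw : S_LLw := p_LLw p_reg2w p_LLf

theorem m_LLT : S_LLT := p_LLT p_LLf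

theorem m_nrl : S_nrl := p_nrl p_sg p_sgn

theorem m_nrg : S_nrg := p_nrg p_sg p_sgn p_LLf

theorem m_nrG : S_nrG := p_nrG m_nrl m_nrg m_LLw

theorem m_nrT : S_nrT := p_nrT m_nrl m_nrg m_LLT

theorem m_FR : S_FR := p_FR p_rt2 p_sg p_LLf

theorem m_FRl : S_FRl := p_FRl p_rt2 p_LLf

theorem m_FZ : S_FZ := p_FZ m_FR m_FRl m_FJ m_DB

theorem m_fam : S_fam := p_fam p_gr

theorem m_cntM : S_cntM := p_cntM m_fam p_PH p_rep p_cD p_jen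

theorem m_nrF : S_nrF := p_nrF m_fam m_nrT

theorem m_FRF : S_FRF := p_FRF m_fam m_FR

theorem m_ann : S_ann := p_ann m_NII m_nrF m_FRF m_FJ

theorem m_out0 : S_out0 := p_out0 p_alg p_pair p_PH m_fam m_cntM m_ann

theorem m_out : S_out := p_out m_out0

theorem m_outs : S_outs := p_outs m_out p_link p_dbl

theorem m_blkI : S_blkI := p_blkI m_nrG m_NI m_FZ p_top m_mb1

theorem m_blkII : S_blkII := p_blkII m_nrG m_nrT m_NII m_FZ p_top m_mb1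

theorem m_J : S_J := p_J m_blkI m_blkII p_low m_out m_outs m_FZ

theorem m_sim : S_sim := p_sim p_dbl

theorem m_fin : S_fin := p_fin m_J p_link m_sim

end Pool.Agent.Lib.MP_cd509c_nt.JD
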