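import Pool.Agent.Lib.MP_cd509c_nt.Jensen

set_option autoImplicit false

namespace Pool.Agent.Lib.MP_cd509c_nt.JD

open MeasureTheory Filter

/-- growth of the moments -/
theorem mom_le : ∃ C : ℝ, 0 < C ∧ ∀ k : ℕ, MA (k + 2) ≤ C * Real.log (k + 3) ^ 2 * MA k := by
  -- the tail integral
  set g : ℝ → ℝ := fun u => Phi u * Real.exp (2 * Real.exp |u|) with hg
  have hgi : Integrable g := by
    have h0 := (integrable_exp_neg_mul_sq (b := 1) (by norm_num)).const_mul
      (Real.exp (9 / 2))
    refine h0.mono' ?_ (Eventually.of_forall fun u => ?_)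
    · exact (Phi_continuous.mul (by fun_prop)).aestronglyMeasurable
    · have hpos := (Phi_pos u).le
      have hE := Real.exp_pos |u|
      rw [Real.norm_of_nonneg (by positivity)]
      have h1 := Phi_le u
      have hv : 0 ≤ |u| := abs_nonneg u
      have hs := Real.quadratic_le_exp_of_nonneg hv
      have hpi := Real.pi_gt_three
      calc Phi u * Real.exp (2 * Real.exp |u|)
          ≤ Real.exp (6 * |u| - 2 * Real.pi * Real.exp |u|) * Real.exp (2 * Real.exp |u|) :=
            mul_le_mul_of_nonneg_right h1 (Real.exp_pos _).le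
        _ = Real.exp (6 * |u| - 2 * Real.pi * Real.exp |u| + 2 * Real.exp |u|) := by
            rw [← Real.exp_add]
        _ ≤ Real.exp (9 / 2 + -1 * u ^ 2) := by
            apply Real.exp_le_exp.mpr
            rw [← sq_abs u]
            have h5 : 4 * Real.exp |u| ≤ (2 * Real.pi - 2) * Real.exp |u| :=
              mul_le_mul_of_nonneg_right (by linarith) hE.le
            nlinarith [sq_nonneg (|u| - 1)]
        _ = _ := by rw [Real.exp_add]
  set I₀ : ℝ := ∫ u, g u with hI₀
  have hI₀0 : 0 ≤ I₀ := integral_nonneg fun u => by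
    have := (Phi_pos u).le
    simp only [hg, Pi.zero_apply]
    positivity
  -- lower bound for the moments
  have hlow : ∃ c : ℝ, 0 < c ∧ ∀ k : ℕ, c ≤ MA k := by
    have hc : 0 < ∫ u in Set.Ioc (1 : ℝ) 2, Phi u := by
      rw [← intervalIntegral.integral_of_le (by norm_num)]
      exact intervalIntegral.intervalIntegral_pos_of_pos
        (Phi_continuous.intervalIntegrable _ _) Phi_pos (by norm_num)
    refine ⟨_, hc, fun k => ?_⟩
    unfold MA
    calc ∫ u in Set.Ioc (1 : ℝ) 2, Phi u ≤ ∫ u in Set.Ioc (1 : ℝ) 2, Phi u * |u| ^ k := by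
          apply setIntegral_mono_on
          · exact (Phi_continuous.integrableOn_Icc (a := 1) (b := 2)).mono_set Set.Ioc_subset_Icc_self
          · exact (integrable_abs_pow k).integrableOn
          · exact measurableSet_Ioc
          · intro u hu
            have h1 : (1 : ℝ) ≤ |u| ^ k := one_le_pow₀ (by rw [abs_of_pos] <;> linarith [hu.1])
            have := (Phi_pos u).le
            nlinarith
      _ ≤ ∫ u, Phi u * |u| ^ k := by
          apply setIntegral_le_integral (integrable_abs_pow k)
          refine Eventually.of_forall fun u => ?_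
          have := (Phi_pos u).le
          simp only [Pi.zero_apply]
          positivity
  obtain ⟨c, hc, hcl⟩ := hlow
  refine ⟨4 + I₀ / c, by positivity, fun k => ?_⟩
  set U : ℝ := 2 * Real.log (k + 3) with hU
  have hk0 : (0 : ℝ) ≤ k := Nat.cast_nonneg k
  have hlog : 1 ≤ Real.log (k + 3) := by
    rw [Real.le_log_iff_exp_le (by linarith)]
    have := Real.exp_one_lt_d9
    linarith
  have hpt : ∀ u : ℝ, Phi u * |u| ^ (k + 2) ≤ U ^ 2 * (Phi u * |u| ^ k) + g u := by
    intro u
    have hP := (Phi_pos u).le
    have hgu : 0 ≤ g u := by simp only [hg]; positivity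
    rcases le_total |u| U with h | h
    · have h1 : |u| ^ 2 ≤ U ^ 2 := pow_le_pow_left₀ (abs_nonneg u) h 2
      have h2 : Phi u * |u| ^ (k + 2) = |u| ^ 2 * (Phi u * |u| ^ k) := by ring
      rw [h2]
      have h3 : |u| ^ 2 * (Phi u * |u| ^ k) ≤ U ^ 2 * (Phi u * |u| ^ k) :=
        mul_le_mul_of_nonneg_right h1 (by positivity)
      linarith
    · have hu1 : 2 ≤ |u| := by rw [hU] at h; linarith
      have h1 : ((k : ℝ) + 3) * (|u| / 2) ≤ Real.exp |u| := by
        have e : Real.exp |u| = Real.exp (|u| / 2) * Real.exp (|u| / 2) := by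
          rw [← Real.exp_add]; congr 1; ring
        rw [e]
        apply mul_le_mul
        · have : Real.log (k + 3) ≤ |u| / 2 := by rw [hU] at h; linarith
          calc (k : ℝ) + 3 = Real.exp (Real.log (k + 3)) := (Real.exp_log (by linarith)).symm
            _ ≤ _ := Real.exp_le_exp.mpr this
        · have := Real.add_one_le_exp (|u| / 2)
          linarith
        · linarith
        · exact (Real.exp_pos _).le
      have h2 : |u| ^ (k + 2) ≤ Real.exp (2 * Real.exp |u|) := by
        have hlu : Real.log |u| ≤ |u| := (Real.log_le_sub_one_of_pos (by linarith)).trans (by linarith)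
        calc |u| ^ (k + 2) = Real.exp (((k + 2 : ℕ) : ℝ) * Real.log |u|) := by
              rw [Real.exp_nat_mul, Real.exp_log (by linarith)]
          _ ≤ Real.exp (2 * Real.exp |u|) := by
              apply Real.exp_le_exp.mpr
              push_cast
              nlinarith
      have h3 : Phi u * |u| ^ (k + 2) ≤ g u := mul_le_mul_of_nonneg_left h2 hP
      have h4 : 0 ≤ U ^ 2 * (Phi u * |u| ^ k) := by positivity
      linarith
  have h1 : MA (k + 2) ≤ U ^ 2 * MA k + I₀ := by
    unfold MA
    rw [hI₀, ← integral_const_mul, ← integral_add ((integrable_abs_pow k).const_mul _) hgi]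
    exact integral_mono (integrable_abs_pow (k + 2))
      (((integrable_abs_pow k).const_mul _).add hgi) hpt
  have hMA := hcl k
  have h2 : I₀ ≤ I₀ / c * Real.log (k + 3) ^ 2 * MA k := by
    have e1 : I₀ = I₀ / c * 1 * c := by field_simp
    have e2 : (1 : ℝ) ≤ Real.log (k + 3) ^ 2 := one_le_pow₀ hlog
    calc I₀ = I₀ / c * 1 * c := e1
      _ ≤ I₀ / c * Real.log (k + 3) ^ 2 * MA k := by
        apply mul_le_mul _ hMA hc.le (by positivity)
        exact mul_le_mul_of_nonneg_left e2 (by positivity)
  calc MA (k + 2) ≤ U ^ 2 * MA k + I₀ := h1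
    _ ≤ U ^ 2 * MA k + I₀ / c * Real.log (k + 3) ^ 2 * MA k := by linarith
    _ = _ := by rw [hU]; ring

end Pool.Agent.Lib.MP_cd509c_nt.JD
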